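import Pool.Agent.R580.CD.Cyc

/-!
# Self-improvement of lower bounds for the Charney–Davis quantity
-/

set_option autoImplicit false
set_option linter.unusedSectionVars false

namespace Pool.Agent.R580.CD

open Finset Module Pool.Agent.W907.SG

section

variable {V : Type} [Fintype V] [LinearOrder V] {F : Type} [Field F]

theorem Sph.exists_mem {d : ℕ} {G : SimpleGraph V} (hS : Sph F d G) {T : Finset V}
    (hT : G.IsClique (T : Set V)) (h : T.card < d) : ∃ x, x ∈ lnk G T := by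
  have h3 := hS T hT 0
  rw [if_neg (by omega), betti_eq_zero] at h3
  have h4 : (Pi.single ∅ 1 : Finset V → F) ∈ Zy F G (lnk G T) 0 := by
    refine ⟨fun R hR => ?_, ?_⟩
    · rw [Pi.single_apply, if_neg]
      rintro rfl
      apply hR
      simp
    · show bd F _ = 0
      funext R
      rw [bd_apply]
      refine Finset.sum_eq_zero fun v _ => ?_
      rw [Pi.single_apply, if_neg (Finset.insert_ne_empty v R), smul_zero]
  obtain ⟨c, hc, hc2⟩ := h3 h4
  have hc : c ∈ CC F G (lnk G T) 1 := hc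
  have h5 := congrFun hc2 ∅
  rw [bd_apply, Pi.single_eq_same] at h5
  obtain ⟨x, _, hx⟩ : ∃ x ∈ (∅ : Finset V)ᶜ, sg x (∅ : Finset V) • c (insert x ∅) ≠ 0 := by
    by_contra hno
    push Not at hno
    rw [Finset.sum_eq_zero hno] at h5
    exact zero_ne_one h5
  refine ⟨x, ?_⟩
  by_contra hx1
  apply hx
  rw [hc (insert x ∅), smul_zero]
  rintro ⟨_, h6, _⟩
  exact hx1 (h6 (by simp))

/-- The clique complex of `G` is a homology manifold with the homology of the sphere of dimension `d - 1`, with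
coefficients in all fields. -/
def GHS (d : ℕ) (G : SimpleGraph V) : Prop := ∀ (K : Type) [Field K], Sph K d G

open Classical in
/-- `∑ (-1/2)^|T|` over the cliques of `G` -/
noncomputable def omega (G : SimpleGraph V) : ℚ :=
  ∑ T : Finset V, if G.IsClique (T : Set V) then (-1 / 2 : ℚ) ^ T.card else 0

/-- the value at `- 1 / 2` -/
noncomputable def ev : Polynomial ℤ →+* ℚ := Polynomial.eval₂RingHom (Int.castRingHom ℚ) (-1 / 2)

theorem ev_X : ev Polynomial.X = -1 / 2 := Polynomial.eval₂_X _ _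

theorem omega_eq (G : SimpleGraph V) : omega G = ev (fp G Set.univ) := by
  classical
  unfold omega fp
  rw [map_sum]
  refine Finset.sum_congr rfl fun T _ => ?_
  by_cases hT : G.IsClique (T : Set V)
  · rw [if_pos hT, if_pos ⟨hT, Set.subset_univ _⟩, map_pow, ev_X]
  · rw [if_neg hT, if_neg (fun h => hT h.1), map_zero]

theorem omega_bound (G : SimpleGraph V) : |omega G| ≤ 2 ^ Fintype.card V := by
  classical
  unfold omega
  refine (Finset.abs_sum_le_sum_abs _ _).trans ?_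
  have h : ∀ T ∈ (Finset.univ : Finset (Finset V)),
      |if G.IsClique (T : Set V) then (-1 / 2 : ℚ) ^ T.card else 0| ≤ 1 := by
    intro T _
    split_ifs
    · rw [abs_pow]
      refine pow_le_one₀ (abs_nonneg _) ?_
      rw [show (-1 / 2 : ℚ) = -(1 / 2) by ring, abs_neg, abs_of_pos] <;> norm_num
    · simp
  refine (Finset.sum_le_sum h).trans ?_
  rw [Finset.sum_const, Finset.card_univ, Fintype.card_finset, nsmul_eq_mul, mul_one]
  push_cast
  exact le_refl _

theorem exists_double {d : ℕ} {G : SimpleGraph V} (hd : 1 ≤ d) (hS : GHS d G) :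
    ∃ (W : Type) (_ : Fintype W) (_ : LinearOrder W) (H : SimpleGraph W), GHS d H ∧
      Fintype.card W ≤ 2 * Fintype.card V ∧ omega H = 2 * omega G := by
  classical
  obtain ⟨v, _⟩ := (hS ℚ).exists_mem (T := ∅) (by simp) (by simp; omega)
  refine ⟨↥(hA v ∪ hB G v), inferInstance, inferInstance, (dbl G v).induce (hA v ∪ hB G v),
    fun K _ => (dbl_sphOn (hS K) v).induce, ?_, ?_⟩
  · have h1 : (hA v ∪ hB G v) = ((Finset.univ.map (ic0 : V ↪ V ×ₗ Bool) ∪ Finset.univ.map (ic1 G v) :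
        Finset (V ×ₗ Bool)) : Set (V ×ₗ Bool)) ∩ (hA v ∪ hB G v) := by
      ext p
      simp only [hA, hB, Set.mem_union, Set.mem_image, Finset.coe_union, Finset.coe_map, Finset.coe_univ,
        Set.mem_inter_iff, Set.image_univ, Set.mem_range]
      constructor
      · rintro (⟨x, hx, rfl⟩ | ⟨x, hx, rfl⟩)
        · exact ⟨Or.inl ⟨x, rfl⟩, Or.inl ⟨x, hx, rfl⟩⟩
        · exact ⟨Or.inr ⟨x, rfl⟩, Or.inr ⟨x, hx, rfl⟩⟩
      · exact fun h => h.2
    have h2 : Fintype.card ↥(hA v ∪ hB G v) ≤ (Finset.univ.map (ic0 : V ↪ V ×ₗ Bool) ∪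
        Finset.univ.map (ic1 G v)).card := by
      rw [← Set.toFinset_card]
      refine Finset.card_le_card ?_
      intro p hp
      rw [Set.mem_toFinset, h1] at hp
      exact hp.1
    refine h2.trans ((Finset.card_union_le _ _).trans ?_)
    rw [card_map, card_map, Finset.card_univ]
    omega
  · rw [omega_eq, omega_eq, fp_univ_induce, fp_dbl, map_sub, map_mul, map_mul, map_add, map_mul, ev_X]
    have h2 : ev (2 : Polynomial ℤ) = 2 := by
      rw [show (2 : Polynomial ℤ) = 1 + 1 by norm_num, map_add, map_one]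
      norm_num
    rw [h2, map_one]
    ring

theorem exists_join {d : ℕ} {G : SimpleGraph V} (hS : GHS d G) {m : ℕ} (hm : 4 ≤ m) :
    ∃ (W : Type) (_ : Fintype W) (_ : LinearOrder W) (H : SimpleGraph W), GHS (d + 2) H ∧
      Fintype.card W = Fintype.card V + m ∧ omega H = (1 - m / 4) * omega G := by
  refine ⟨V ⊕ₗ Fin m, inferInstance, inferInstance, jn G m, fun K _ => jn_sph hm (hS K), ?_, ?_⟩
  · show Fintype.card (V ⊕ Fin m) = _
    rw [Fintype.card_sum, Fintype.card_fin]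
  · rw [omega_eq, omega_eq, fp_jn hm, map_mul, map_add, map_add, map_mul, map_mul, map_pow, ev_X, map_one,
      map_natCast]
    ring

/-- many doubles and joins -/
theorem exists_amp {n : ℕ} {G : SimpleGraph V} (hn : 1 ≤ n) (hS : GHS (2 * n) G) (k : ℕ) : ∀ j : ℕ,
    ∃ (W : Type) (_ : Fintype W) (_ : LinearOrder W) (H : SimpleGraph W), GHS (2 * (n + j)) H ∧
      Fintype.card W ≤ 2 ^ k * (Fintype.card V + 5 * j) ∧
      (-1) ^ (n + j) * omega H = (-1) ^ n * omega G * (2 ^ k) ^ (j + 1) / 4 ^ j := by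
  have h0 : ∀ k : ℕ, ∃ (W : Type) (_ : Fintype W) (_ : LinearOrder W) (H : SimpleGraph W),
      GHS (2 * n) H ∧ Fintype.card W ≤ 2 ^ k * Fintype.card V ∧ omega H = 2 ^ k * omega G := by
    intro k
    induction k with
    | zero => exact ⟨V, inferInstance, inferInstance, G, hS, by simp, by simp⟩
    | succ k ih =>
      obtain ⟨W, _, _, H, h1, h2, h3⟩ := ih
      obtain ⟨W', i1, i2, H', h4, h5, h6⟩ := exists_double (by omega) h1
      refine ⟨W', i1, i2, H', h4, ?_, ?_⟩
      · refine h5.trans ?_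
        rw [pow_succ]
        nlinarith
      · rw [h6, h3, pow_succ]
        ring
  intro j
  induction j with
  | zero =>
    obtain ⟨W, i1, i2, H, h1, h2, h3⟩ := h0 k
    refine ⟨W, i1, i2, H, h1, by simpa using h2, ?_⟩
    rw [h3]
    simp only [add_zero, zero_add, pow_one, pow_zero, div_one]
    ring
  | succ j ih =>
    obtain ⟨W, _, _, H, h1, h2, h3⟩ := ih
    have h7 : 1 ≤ 2 ^ k := Nat.one_le_two_pow
    obtain ⟨W', i1, i2, H', h4, h5, h6⟩ := exists_join h1 (m := 4 + 2 ^ k) (by omega)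
    refine ⟨W', i1, i2, H', h4, ?_, ?_⟩
    · rw [h5]
      calc Fintype.card W + (4 + 2 ^ k) ≤ 2 ^ k * (Fintype.card V + 5 * j) + 5 * 2 ^ k := by omega
        _ = 2 ^ k * (Fintype.card V + 5 * (j + 1)) := by ring
    · have h8 : (-1 : ℚ) ^ (n + (j + 1)) * omega H' = ((-1) ^ (n + j) * omega H) * (2 ^ k / 4) := by
        rw [h6]
        push_cast
        ring
      rw [h8, h3, pow_succ (4 : ℚ) j, pow_succ ((2 : ℚ) ^ k) (j + 1)]
      field_simp

/-- a counterexample produces counterexamples of all larger dimensions, with a large defect -/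
theorem amplify {n m : ℕ} {G : SimpleGraph V} (hn : 1 ≤ n) (hm : n ≤ m) (hS : GHS (2 * n) G)
    (hneg : (-1) ^ n * omega G < 0) : ∃ c : ℚ, 0 < c ∧ ∀ N : ℕ,
      ∃ (W : Type) (_ : Fintype W) (_ : LinearOrder W) (H : SimpleGraph W), GHS (2 * m) H ∧
        N ≤ Fintype.card W ∧ (-1) ^ m * omega H ≤ - c * (Fintype.card W : ℚ) ^ (m - n + 1) := by
  obtain ⟨j, rfl⟩ : ∃ j, m = n + j := ⟨m - n, by omega⟩
  have hj : n + j - n = j := by omega
  rw [hj]
  set a : ℚ := - ((-1) ^ n * omega G) with ha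
  have hapos : 0 < a := by rw [ha]; linarith
  set v0 : ℕ := Fintype.card V + 5 * j with hv0
  have hv0pos : 1 ≤ v0 := by
    obtain ⟨v, _⟩ := (hS ℚ).exists_mem (T := ∅) (by simp) (by simp; omega)
    have : 0 < Fintype.card V := Fintype.card_pos_iff.mpr ⟨v⟩
    omega
  refine ⟨a / (4 ^ j * (v0 : ℚ) ^ (j + 1)), by positivity, fun N => ?_⟩
  -- a large number of doubles
  obtain ⟨k, hk⟩ : ∃ k : ℕ, 2 ^ N * 4 ^ j / a < 2 ^ k := by
    obtain ⟨k, hk⟩ := pow_unbounded_of_one_lt (2 ^ N * 4 ^ j / a) (one_lt_two (α := ℚ))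
    exact ⟨k, hk⟩
  obtain ⟨W, i1, i2, H, h1, h2, h3⟩ := exists_amp hn hS k j
  have h4 : (-1) ^ (n + j) * omega H = - (a * (2 ^ k) ^ (j + 1) / 4 ^ j) := by
    rw [h3, ha]
    ring
  refine ⟨W, i1, i2, H, h1, ?_, ?_⟩
  · by_contra hcon
    push Not at hcon
    have h5 := omega_bound H
    have h6 : |omega H| = a * (2 ^ k) ^ (j + 1) / 4 ^ j := by
      have h7 : |(-1) ^ (n + j) * omega H| = |omega H| := by
        rw [abs_mul, abs_pow, abs_neg, abs_one, one_pow, one_mul]
      rw [← h7, h4, abs_neg, abs_of_pos (by positivity)]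
    rw [h6] at h5
    have h8 : (2 : ℚ) ^ Fintype.card W ≤ 2 ^ N := pow_le_pow_right₀ one_le_two hcon.le
    have h9 : (2 : ℚ) ^ k ≤ (2 ^ k) ^ (j + 1) := by
      conv_lhs => rw [← pow_one ((2 : ℚ) ^ k)]
      exact pow_le_pow_right₀ (one_le_pow₀ one_le_two) (by omega)
    rw [div_lt_iff₀ hapos] at hk
    rw [div_le_iff₀ (by positivity)] at h5
    have h10 : a * 2 ^ k ≤ a * (2 ^ k) ^ (j + 1) := mul_le_mul_of_nonneg_left h9 hapos.le
    have h11 : (2 : ℚ) ^ Fintype.card W * 4 ^ j ≤ 2 ^ N * 4 ^ j :=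
      mul_le_mul_of_nonneg_right h8 (by positivity)
    linarith
  · have h5 : (Fintype.card W : ℚ) ≤ 2 ^ k * v0 := by exact_mod_cast h2
    have h6 : (Fintype.card W : ℚ) ^ (j + 1) ≤ (2 ^ k * v0) ^ (j + 1) :=
      pow_le_pow_left₀ (by positivity) h5 _
    have h7 : a / (4 ^ j * (v0 : ℚ) ^ (j + 1)) * (Fintype.card W : ℚ) ^ (j + 1) ≤
        a * (2 ^ k) ^ (j + 1) / 4 ^ j := by
      calc a / (4 ^ j * (v0 : ℚ) ^ (j + 1)) * (Fintype.card W : ℚ) ^ (j + 1)
          ≤ a / (4 ^ j * (v0 : ℚ) ^ (j + 1)) * (2 ^ k * v0) ^ (j + 1) :=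
            mul_le_mul_of_nonneg_left h6 (by positivity)
        _ = a * (2 ^ k) ^ (j + 1) / 4 ^ j := by
            rw [mul_pow]
            have : (v0 : ℚ) ^ (j + 1) ≠ 0 := by positivity
            field_simp
    calc (-1) ^ (n + j) * omega H = - (a * (2 ^ k) ^ (j + 1) / 4 ^ j) := h4
      _ ≤ - (a / (4 ^ j * (v0 : ℚ) ^ (j + 1)) * (Fintype.card W : ℚ) ^ (j + 1)) := neg_le_neg h7
      _ = _ := by ring

end

end Pool.Agent.R580.CD
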