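import Pool.Agent.R580.CD.GAmp

/-!
# Self-improvement of lower bounds for the Charney–Davis quantity, over one field
-/

set_option autoImplicit false
set_option linter.unusedSectionVars false

namespace Pool.Agent.R580.CD

open Finset Module Pool.Agent.W907.SG

section

variable {V : Type} [Fintype V] [LinearOrder V] {F : Type} [Field F]

theorem exists_doubleF {d : ℕ} {G : SimpleGraph V} (hd : 1 ≤ d) (hS : Sph F d G) :
    ∃ (W : Type) (_ : Fintype W) (_ : LinearOrder W) (H : SimpleGraph W), Sph F d H ∧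
      Fintype.card W ≤ 2 * Fintype.card V ∧ omega H = 2 * omega G := by
  classical
  obtain ⟨v, _⟩ := hS.exists_mem (T := ∅) (by simp) (by simp; omega)
  refine ⟨↥(hA v ∪ hB G v), inferInstance, inferInstance, (dbl G v).induce (hA v ∪ hB G v),
    (dbl_sphOn hS v).induce, ?_, ?_⟩
  · have h1 : (hA v ∪ hB G v) = ((Finset.univ.map (ic0 : V ↪ V ×ₗ Bool) ∪ Finset.univ.map (ic1 G v) :
        Finset (V ×ₗ Bool)) : Set (V ×ₗ Bool)) ∩ (hA v ∪ hB G v) := by
      ext p
      simp only [hA, hB, Set.mem_union, Set.mem_image, Finset.coe_union, Finset.coe_map, Finset.coe_univ,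
        Set.mem_inter_iff, Set.image_univ, Set.mem_range]
      constructor
      · rintro (⟨x, hx, rfl⟩ | ⟨x, hx, rfl⟩)
        · exact ⟨Or.inl ⟨x, rfl⟩, Or.inl ⟨x, hx, rfl⟩⟩
        · exact ⟨Or.inr ⟨x, rfl⟩, Or.inr ⟨x, hx, rfl⟩⟩
      · exact fun h => h.2
    have h2 : Fintype.card ↥(hA v ∪ hB G v) ≤ (Finset.univ.map (ic0 : V ↪ V ×ₗ Bool) ∪
        Finset.univ.map (ic1 G v)).card := by
      rw [← Set.toFinset_card]
      refine Finset.card_le_card ?_
      intro p hp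
      rw [Set.mem_toFinset, h1] at hp
      exact hp.1
    refine h2.trans ((Finset.card_union_le _ _).trans ?_)
    rw [card_map, card_map, Finset.card_univ]
    omega
  · rw [omega_eq, omega_eq, fp_univ_induce, fp_dbl, map_sub, map_mul, map_mul, map_add, map_mul, ev_X]
    have h2 : ev (2 : Polynomial ℤ) = 2 := by
      rw [show (2 : Polynomial ℤ) = 1 + 1 by norm_num, map_add, map_one]
      norm_num
    rw [h2, map_one]
    ring

theorem exists_joinF {d : ℕ} {G : SimpleGraph V} (hS : Sph F d G) {m : ℕ} (hm : 4 ≤ m) :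
    ∃ (W : Type) (_ : Fintype W) (_ : LinearOrder W) (H : SimpleGraph W), Sph F (d + 2) H ∧
      Fintype.card W = Fintype.card V + m ∧ omega H = (1 - m / 4) * omega G := by
  refine ⟨V ⊕ₗ Fin m, inferInstance, inferInstance, jn G m, jn_sph hm hS, ?_, ?_⟩
  · show Fintype.card (V ⊕ Fin m) = _
    rw [Fintype.card_sum, Fintype.card_fin]
  · rw [omega_eq, omega_eq, fp_jn hm, map_mul, map_add, map_add, map_mul, map_mul, map_pow, ev_X, map_one,
      map_natCast]
    ring

/-- many doubles and joins -/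
theorem exists_ampF {n : ℕ} {G : SimpleGraph V} (hn : 1 ≤ n) (hS : Sph F (2 * n) G) (k : ℕ) : ∀ j : ℕ,
    ∃ (W : Type) (_ : Fintype W) (_ : LinearOrder W) (H : SimpleGraph W), Sph F (2 * (n + j)) H ∧
      Fintype.card W ≤ 2 ^ k * (Fintype.card V + 5 * j) ∧
      (-1) ^ (n + j) * omega H = (-1) ^ n * omega G * (2 ^ k) ^ (j + 1) / 4 ^ j := by
  have h0 : ∀ k : ℕ, ∃ (W : Type) (_ : Fintype W) (_ : LinearOrder W) (H : SimpleGraph W),
      Sph F (2 * n) H ∧ Fintype.card W ≤ 2 ^ k * Fintype.card V ∧ omega H = 2 ^ k * omega G := by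
    intro k
    induction k with
    | zero => exact ⟨V, inferInstance, inferInstance, G, hS, by simp, by simp⟩
    | succ k ih =>
      obtain ⟨W, _, _, H, h1, h2, h3⟩ := ih
      obtain ⟨W', i1, i2, H', h4, h5, h6⟩ := exists_doubleF (by omega) h1
      refine ⟨W', i1, i2, H', h4, ?_, ?_⟩
      · refine h5.trans ?_
        rw [pow_succ]
        nlinarith
      · rw [h6, h3, pow_succ]
        ring
  intro j
  induction j with
  | zero =>
    obtain ⟨W, i1, i2, H, h1, h2, h3⟩ := h0 k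
    refine ⟨W, i1, i2, H, h1, by simpa using h2, ?_⟩
    rw [h3]
    simp only [add_zero, zero_add, pow_one, pow_zero, div_one]
    ring
  | succ j ih =>
    obtain ⟨W, _, _, H, h1, h2, h3⟩ := ih
    have h7 : 1 ≤ 2 ^ k := Nat.one_le_two_pow
    obtain ⟨W', i1, i2, H', h4, h5, h6⟩ := exists_joinF h1 (m := 4 + 2 ^ k) (by omega)
    refine ⟨W', i1, i2, H', h4, ?_, ?_⟩
    · rw [h5]
      calc Fintype.card W + (4 + 2 ^ k) ≤ 2 ^ k * (Fintype.card V + 5 * j) + 5 * 2 ^ k := by omega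
        _ = 2 ^ k * (Fintype.card V + 5 * (j + 1)) := by ring
    · have h8 : (-1 : ℚ) ^ (n + (j + 1)) * omega H' = ((-1) ^ (n + j) * omega H) * (2 ^ k / 4) := by
        rw [h6]
        push_cast
        ring
      rw [h8, h3, pow_succ (4 : ℚ) j, pow_succ ((2 : ℚ) ^ k) (j + 1)]
      field_simp

/-- a counterexample produces counterexamples of all larger dimensions, with a large defect -/
theorem amplifyF {n m : ℕ} {G : SimpleGraph V} (hn : 1 ≤ n) (hm : n ≤ m) (hS : Sph F (2 * n) G)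
    (hneg : (-1) ^ n * omega G < 0) : ∃ c : ℚ, 0 < c ∧ ∀ N : ℕ,
      ∃ (W : Type) (_ : Fintype W) (_ : LinearOrder W) (H : SimpleGraph W), Sph F (2 * m) H ∧
        N ≤ Fintype.card W ∧ (-1) ^ m * omega H ≤ - c * (Fintype.card W : ℚ) ^ (m - n + 1) := by
  obtain ⟨j, rfl⟩ : ∃ j, m = n + j := ⟨m - n, by omega⟩
  have hj : n + j - n = j := by omega
  rw [hj]
  set a : ℚ := - ((-1) ^ n * omega G) with ha
  have hapos : 0 < a := by rw [ha]; linarith
  set v0 : ℕ := Fintype.card V + 5 * j with hv0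
  have hv0pos : 1 ≤ v0 := by
    obtain ⟨v, _⟩ := hS.exists_mem (T := ∅) (by simp) (by simp; omega)
    have : 0 < Fintype.card V := Fintype.card_pos_iff.mpr ⟨v⟩
    omega
  refine ⟨a / (4 ^ j * (v0 : ℚ) ^ (j + 1)), by positivity, fun N => ?_⟩
  -- a large number of doubles
  obtain ⟨k, hk⟩ : ∃ k : ℕ, 2 ^ N * 4 ^ j / a < 2 ^ k := by
    obtain ⟨k, hk⟩ := pow_unbounded_of_one_lt (2 ^ N * 4 ^ j / a) (one_lt_two (α := ℚ))
    exact ⟨k, hk⟩
  obtain ⟨W, i1, i2, H, h1, h2, h3⟩ := exists_ampF hn hS k j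
  have h4 : (-1) ^ (n + j) * omega H = - (a * (2 ^ k) ^ (j + 1) / 4 ^ j) := by
    rw [h3, ha]
    ring
  refine ⟨W, i1, i2, H, h1, ?_, ?_⟩
  · by_contra hcon
    push Not at hcon
    have h5 := omega_bound H
    have h6 : |omega H| = a * (2 ^ k) ^ (j + 1) / 4 ^ j := by
      have h7 : |(-1) ^ (n + j) * omega H| = |omega H| := by
        rw [abs_mul, abs_pow, abs_neg, abs_one, one_pow, one_mul]
      rw [← h7, h4, abs_neg, abs_of_pos (by positivity)]
    rw [h6] at h5
    have h8 : (2 : ℚ) ^ Fintype.card W ≤ 2 ^ N := pow_le_pow_right₀ one_le_two hcon.le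
    have h9 : (2 : ℚ) ^ k ≤ (2 ^ k) ^ (j + 1) := by
      conv_lhs => rw [← pow_one ((2 : ℚ) ^ k)]
      exact pow_le_pow_right₀ (one_le_pow₀ one_le_two) (by omega)
    rw [div_lt_iff₀ hapos] at hk
    rw [div_le_iff₀ (by positivity)] at h5
    have h10 : a * 2 ^ k ≤ a * (2 ^ k) ^ (j + 1) := mul_le_mul_of_nonneg_left h9 hapos.le
    have h11 : (2 : ℚ) ^ Fintype.card W * 4 ^ j ≤ 2 ^ N * 4 ^ j :=
      mul_le_mul_of_nonneg_right h8 (by positivity)
    linarith
  · have h5 : (Fintype.card W : ℚ) ≤ 2 ^ k * v0 := by exact_mod_cast h2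
    have h6 : (Fintype.card W : ℚ) ^ (j + 1) ≤ (2 ^ k * v0) ^ (j + 1) :=
      pow_le_pow_left₀ (by positivity) h5 _
    have h7 : a / (4 ^ j * (v0 : ℚ) ^ (j + 1)) * (Fintype.card W : ℚ) ^ (j + 1) ≤
        a * (2 ^ k) ^ (j + 1) / 4 ^ j := by
      calc a / (4 ^ j * (v0 : ℚ) ^ (j + 1)) * (Fintype.card W : ℚ) ^ (j + 1)
          ≤ a / (4 ^ j * (v0 : ℚ) ^ (j + 1)) * (2 ^ k * v0) ^ (j + 1) :=
            mul_le_mul_of_nonneg_left h6 (by positivity)
        _ = a * (2 ^ k) ^ (j + 1) / 4 ^ j := by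
            rw [mul_pow]
            have : (v0 : ℚ) ^ (j + 1) ≠ 0 := by positivity
            field_simp
    calc (-1) ^ (n + j) * omega H = - (a * (2 ^ k) ^ (j + 1) / 4 ^ j) := h4
      _ ≤ - (a / (4 ^ j * (v0 : ℚ) ^ (j + 1)) * (Fintype.card W : ℚ) ^ (j + 1)) := neg_le_neg h7
      _ = _ := by ring

end

end Pool.Agent.R580.CD
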