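import Pool.Agent.R580.CD.Dbl

/-!
# The join with a cycle
-/

set_option autoImplicit false
set_option linter.unusedSectionVars false

namespace Pool.Agent.R580.CD

open Finset Module Pool.Agent.W907.SG

section

variable {V : Type} [Fintype V] [LinearOrder V] {F : Type} [Field F] {m : ℕ}

/-- adjacency in the cycle with `m` vertices -/
def cadj (m : ℕ) (a b : Fin m) : Prop :=
  a ≠ b ∧ (a.val + 1 = b.val ∨ b.val + 1 = a.val ∨ (a.val = 0 ∧ b.val + 1 = m) ∨ (b.val = 0 ∧ a.val + 1 = m))

theorem cadj_symm {a b : Fin m} (h : cadj m a b) : cadj m b a := by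
  obtain ⟨h1, h2⟩ := h
  exact ⟨h1.symm, by tauto⟩

theorem cadj_tri (hm : 4 ≤ m) {a b c : Fin m} (h1 : cadj m a b) (h2 : cadj m a c) (h3 : cadj m b c) : False := by
  obtain ⟨n1, h1⟩ := h1
  obtain ⟨n2, h2⟩ := h2
  obtain ⟨n3, h3⟩ := h3
  have := a.isLt
  have := b.isLt
  have := c.isLt
  rw [ne_eq, Fin.ext_iff] at n1 n2 n3
  omega

theorem cadj_nbrs (hm : 4 ≤ m) (a : Fin m) : ∃ p q : Fin m, p ≠ q ∧ ¬ cadj m p q ∧
    ∀ c, cadj m c a ↔ c = p ∨ c = q := by
  have ha := a.isLt
  by_cases h0 : a.val = 0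
  · refine ⟨⟨1, by omega⟩, ⟨m - 1, by omega⟩, ?_, ?_, fun c => ?_⟩
    · rw [ne_eq, Fin.ext_iff]
      show ¬ (1 = m - 1)
      omega
    · rintro ⟨_, h⟩
      simp only at h
      omega
    · have := c.isLt
      unfold cadj
      rw [ne_eq, Fin.ext_iff, Fin.ext_iff, Fin.ext_iff]
      simp only
      omega
  · by_cases h1 : a.val + 1 = m
    · refine ⟨⟨0, by omega⟩, ⟨m - 2, by omega⟩, ?_, ?_, fun c => ?_⟩
      · rw [ne_eq, Fin.ext_iff]
        show ¬ (0 = m - 2)
        omega
      · rintro ⟨_, h⟩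
        simp only at h
        omega
      · have := c.isLt
        unfold cadj
        rw [ne_eq, Fin.ext_iff, Fin.ext_iff, Fin.ext_iff]
        simp only
        omega
    · refine ⟨⟨a.val - 1, by omega⟩, ⟨a.val + 1, by omega⟩, ?_, ?_, fun c => ?_⟩
      · rw [ne_eq, Fin.ext_iff]
        show ¬ (a.val - 1 = a.val + 1)
        omega
      · rintro ⟨_, h⟩
        simp only at h
        omega
      · have := c.isLt
        unfold cadj
        rw [ne_eq, Fin.ext_iff, Fin.ext_iff, Fin.ext_iff]
        simp only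
        omega

/-- adjacency in the join of `G` with the cycle -/
def jadj (G : SimpleGraph V) (m : ℕ) : V ⊕ Fin m → V ⊕ Fin m → Prop
  | Sum.inl x, Sum.inl y => G.Adj x y
  | Sum.inl _, Sum.inr _ => True
  | Sum.inr _, Sum.inl _ => True
  | Sum.inr a, Sum.inr b => cadj m a b

/-- the join of `G` with the cycle with `m` vertices -/
def jn (G : SimpleGraph V) (m : ℕ) : SimpleGraph (V ⊕ₗ Fin m) where
  Adj p q := jadj G m (ofLex p) (ofLex q)
  symm := ⟨fun p q h => by
    rcases hp : ofLex p with x | a <;> rcases hq : ofLex q with y | b <;> simp only [hp, hq, jadj] at h ⊢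
    · exact h.symm
    · exact cadj_symm h⟩
  loopless := ⟨fun p h => by
    rcases hp : ofLex p with x | a <;> simp only [hp, jadj] at h
    · exact G.loopless.irrefl _ h
    · exact h.1 rfl⟩

/-- the vertices of `G` -/
def il : V ↪ V ⊕ₗ Fin m := ⟨fun x => toLex (Sum.inl x), fun x y h => Sum.inl.inj (toLex.injective h)⟩

/-- the vertices of the cycle -/
def ir : Fin m ↪ V ⊕ₗ Fin m := ⟨fun x => toLex (Sum.inr x), fun x y h => Sum.inr.inj (toLex.injective h)⟩

theorem il_mono : StrictMono (il : V ↪ V ⊕ₗ Fin m) := Sum.Lex.inl_strictMono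

variable {G : SimpleGraph V}

theorem adj_ll {x y : V} : (jn G m).Adj (il x) (il y) ↔ G.Adj x y := Iff.rfl
theorem adj_lr {x : V} {a : Fin m} : (jn G m).Adj (il x) (ir a) := trivial
theorem adj_rl {x : V} {a : Fin m} : (jn G m).Adj (ir a) (il x) := trivial
theorem adj_rr {a b : Fin m} : (jn G m).Adj (ir a) (ir b) ↔ cadj m a b := Iff.rfl
theorem lr_ne {x : V} {a : Fin m} : (il x : V ⊕ₗ Fin m) ≠ ir a := fun h => by
  have := toLex.injective h
  exact Sum.inl_ne_inr this

theorem il_or_ir (p : V ⊕ₗ Fin m) : (∃ x, p = il x) ∨ ∃ a, p = ir a := by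
  rcases hp : ofLex p with x | a
  · exact Or.inl ⟨x, congrArg toLex hp⟩
  · exact Or.inr ⟨a, congrArg toLex hp⟩

/-- the vertices in `X` and in `Y` -/
def J (X : Set V) (Y : Set (Fin m)) : Set (V ⊕ₗ Fin m) := il '' X ∪ ir '' Y

theorem il_mem {X : Set V} {Y : Set (Fin m)} {x : V} : il x ∈ J X Y ↔ x ∈ X := by
  constructor
  · rintro (⟨y, hy, h⟩ | ⟨a, _, h⟩)
    · rwa [← il.injective h]
    · exact absurd h.symm lr_ne
  · exact fun h => Or.inl ⟨x, h, rfl⟩

theorem ir_mem {X : Set V} {Y : Set (Fin m)} {a : Fin m} : (ir a : V ⊕ₗ Fin m) ∈ J X Y ↔ a ∈ Y := by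
  constructor
  · rintro (⟨y, _, h⟩ | ⟨b, hb, h⟩)
    · exact absurd h lr_ne
    · rwa [← ir.injective h]
  · exact fun h => Or.inr ⟨a, h, rfl⟩

theorem J_ext {S : Set (V ⊕ₗ Fin m)} {X : Set V} {Y : Set (Fin m)} (h1 : ∀ x, il x ∈ S ↔ x ∈ X)
    (h2 : ∀ a, ir a ∈ S ↔ a ∈ Y) : S = J X Y := by
  ext p
  rcases il_or_ir p with ⟨x, rfl⟩ | ⟨a, rfl⟩
  · rw [h1, il_mem]
  · rw [h2, ir_mem]

theorem J_union (X : Set V) (Y Y' : Set (Fin m)) : J X Y ∪ J X Y' = J X (Y ∪ Y') :=
  J_ext (fun x => by simp [il_mem]) (fun a => by simp [ir_mem])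

theorem J_inter (X : Set V) (Y Y' : Set (Fin m)) : J X Y ∩ J X Y' = J X (Y ∩ Y') :=
  J_ext (fun x => by simp [il_mem]) (fun a => by simp [ir_mem])

theorem J_empty (X : Set V) : J X (∅ : Set (Fin m)) = il '' X := by
  unfold J
  rw [Set.image_empty, Set.union_empty]

theorem J_cone {X : Set V} {Y : Set (Fin m)} {p : Fin m} (hp : p ∈ Y) (h : ∀ c ∈ Y, c ≠ p → cadj m p c)
    (i : ℕ) : Zy F (jn G m) (J X Y) i ≤ By F (jn G m) (J X Y) i := by
  refine cone (v := ir p) (ir_mem.mpr hp) ?_ i
  intro u hu hup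
  rcases il_or_ir u with ⟨x, rfl⟩ | ⟨a, rfl⟩
  · exact adj_rl
  · refine adj_rr.mpr (h a (ir_mem.mp hu) ?_)
    rintro rfl
    exact hup rfl

theorem J_sep {X : Set V} {Y Y' : Set (Fin m)} (h : ∀ a ∈ Y, a ∉ Y' → ∀ b ∈ Y', b ∉ Y → ¬ cadj m a b) :
    ∀ a ∈ J X Y, a ∉ J X Y' → ∀ b ∈ J X Y', b ∉ J X Y → ¬ (jn G m).Adj a b := by
  intro a ha ha' b hb hb'
  rcases il_or_ir a with ⟨x, rfl⟩ | ⟨a, rfl⟩
  · exact absurd (il_mem.mpr (il_mem.mp ha)) ha'
  · rcases il_or_ir b with ⟨x, rfl⟩ | ⟨b, rfl⟩
    · exact absurd (il_mem.mpr (il_mem.mp hb)) hb'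
    · rw [adj_rr]
      exact h a (ir_mem.mp ha) (fun h1 => ha' (ir_mem.mpr h1)) b (ir_mem.mp hb)
        (fun h1 => hb' (ir_mem.mpr h1))

theorem betti_il (X : Set V) (i : ℕ) : betti F (jn G m) (il '' X) i = betti F G X i :=
  betti_map il il_mono (fun _ _ _ _ => Iff.rfl) i

/-- the suspension -/
theorem J_susp {X : Set V} {p q : Fin m} (hpq : p ≠ q) (hn : ¬ cadj m p q) :
    betti F (jn G m) (J X {p, q}) 0 = 0 ∧
      ∀ i, betti F (jn G m) (J X {p, q}) (i + 1) = betti F G X i := by
  have h := union (F := F) (G := jn G m) (A := J X {p}) (B := J X {q}) (J_sep (by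
      rintro a rfl _ b rfl _
      exact hn))
    (J_cone (p := p) rfl (by
      rintro c rfl hc
      exact absurd rfl hc))
    (J_cone (p := q) rfl (by
      rintro c rfl hc
      exact absurd rfl hc))
  rw [J_union, J_inter] at h
  have h1 : ({p} ∪ {q} : Set (Fin m)) = {p, q} := rfl
  have h2 : ({p} ∩ {q} : Set (Fin m)) = ∅ := by
    ext x
    simp only [Set.mem_inter_iff, Set.mem_singleton_iff, Set.mem_empty_iff_false, iff_false, not_and]
    rintro rfl
    exact hpq
  rw [h1, h2, J_empty] at h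
  refine ⟨h.1, fun i => ?_⟩
  rw [h.2 i, betti_il]

/-- an arc of the cycle -/
def arc (m j : ℕ) : Set (Fin m) := {c | c.val ≤ j}

theorem arc_acyclic (hm : 4 ≤ m) (X : Set V) : ∀ j, j + 2 ≤ m → ∀ i,
    Zy F (jn G m) (J X (arc m j)) i ≤ By F (jn G m) (J X (arc m j)) i := by
  intro j
  induction j with
  | zero =>
    intro _
    refine J_cone (p := ⟨0, by omega⟩) (by show (0 : ℕ) ≤ 0; exact le_refl 0) ?_
    intro c hc hcp
    exfalso
    apply hcp
    rw [Fin.ext_iff]
    have hc : c.val ≤ 0 := hc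
    show c.val = 0
    omega
  | succ j ih =>
    intro hj
    set p : Fin m := ⟨j, by omega⟩ with hp
    set q : Fin m := ⟨j + 1, by omega⟩ with hq
    have hpq : cadj m q p := by
      refine ⟨?_, Or.inr (Or.inl rfl)⟩
      rw [ne_eq, Fin.ext_iff]
      show ¬ (j + 1 = j)
      omega
    have h := union (F := F) (G := jn G m) (A := J X (arc m j)) (B := J X {p, q}) (J_sep (by
        rintro a ha ha2 b hb hb2 ⟨_, hab⟩
        have ha : a.val ≤ j := ha
        have hb2 : ¬ b.val ≤ j := hb2
        rcases hb with rfl | rfl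
        · exact hb2 (le_refl _)
        · have ha3 : a.val ≠ j := by
            intro h1
            apply ha2
            left
            rw [Fin.ext_iff]
            exact h1
          simp only [hq] at hab
          omega))
      (ih (by omega))
      (J_cone (p := q) (by right; rfl) (by
        rintro c (rfl | rfl) hc
        · exact hpq
        · exact absurd rfl hc))
    rw [J_union, J_inter] at h
    have h1 : (arc m j ∪ {p, q} : Set (Fin m)) = arc m (j + 1) := by
      ext c
      simp only [arc, Set.mem_union, Set.mem_setOf_eq, Set.mem_insert_iff, Set.mem_singleton_iff,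
        Fin.ext_iff, hp, hq]
      omega
    have h2 : (arc m j ∩ {p, q} : Set (Fin m)) = {p} := by
      ext c
      simp only [arc, Set.mem_inter_iff, Set.mem_setOf_eq, Set.mem_insert_iff, Set.mem_singleton_iff,
        Fin.ext_iff, hp, hq]
      omega
    rw [h1, h2] at h
    intro i
    rw [← betti_eq_zero]
    rcases i with _ | i
    · exact h.1
    · rw [h.2 i, betti_eq_zero]
      exact J_cone (p := p) (Set.mem_singleton p) (by
        intro c hc hcp
        exact absurd (Set.mem_singleton_iff.mp hc) hcp) i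

/-- the join with the whole cycle -/
theorem J_cyc (hm : 4 ≤ m) (X : Set V) : betti F (jn G m) (J X Set.univ) 0 = 0 ∧
    betti F (jn G m) (J X Set.univ) 1 = 0 ∧
    ∀ i, betti F (jn G m) (J X Set.univ) (i + 2) = betti F G X i := by
  set p : Fin m := ⟨0, by omega⟩ with hp
  set q : Fin m := ⟨m - 2, by omega⟩ with hq
  set r : Fin m := ⟨m - 1, by omega⟩ with hr
  have hrp : cadj m r p := by
    refine ⟨?_, Or.inr (Or.inr (Or.inr ⟨rfl, ?_⟩))⟩
    · rw [ne_eq, Fin.ext_iff]
      show ¬ (m - 1 = 0)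
      omega
    · show m - 1 + 1 = m
      omega
  have hrq : cadj m r q := by
    refine ⟨?_, Or.inr (Or.inl ?_)⟩
    · rw [ne_eq, Fin.ext_iff]
      show ¬ (m - 1 = m - 2)
      omega
    · show m - 2 + 1 = m - 1
      omega
  have hpq : p ≠ q := by
    rw [ne_eq, Fin.ext_iff]
    show ¬ (0 = m - 2)
    omega
  have hnpq : ¬ cadj m p q := by
    rintro ⟨_, h⟩
    simp only [hp, hq] at h
    omega
  have h := union (F := F) (G := jn G m) (A := J X (arc m (m - 2))) (B := J X {p, q, r}) (J_sep (by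
      rintro a ha ha2 b hb hb2 ⟨_, hab⟩
      have ha : a.val ≤ m - 2 := ha
      have hb2 : ¬ b.val ≤ m - 2 := hb2
      have hb3 : b = r := by
        rcases hb with rfl | rfl | rfl
        · exfalso
          apply hb2
          show 0 ≤ m - 2
          omega
        · exact absurd (le_refl _) hb2
        · rfl
      have ha3 : a.val ≠ 0 := by
        intro h1
        apply ha2
        left
        rw [Fin.ext_iff]
        exact h1
      have ha4 : a.val ≠ m - 2 := by
        intro h1
        apply ha2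
        right
        left
        rw [Fin.ext_iff]
        exact h1
      rw [hb3] at hab
      simp only [hr] at hab
      omega))
    (arc_acyclic hm X (m - 2) (by omega))
    (J_cone (p := r) (by right; right; rfl) (by
      rintro c (rfl | rfl | rfl) hc
      · exact hrp
      · exact hrq
      · exact absurd rfl hc))
  rw [J_union, J_inter] at h
  have h1 : (arc m (m - 2) ∪ {p, q, r} : Set (Fin m)) = Set.univ := by
    ext c
    have := c.isLt
    simp only [arc, Set.mem_union, Set.mem_setOf_eq, Set.mem_insert_iff, Set.mem_singleton_iff,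
      Fin.ext_iff, hp, hq, hr, Set.mem_univ, iff_true]
    omega
  have h2 : (arc m (m - 2) ∩ {p, q, r} : Set (Fin m)) = {p, q} := by
    ext c
    have := c.isLt
    simp only [arc, Set.mem_inter_iff, Set.mem_setOf_eq, Set.mem_insert_iff, Set.mem_singleton_iff,
      Fin.ext_iff, hp, hq, hr]
    omega
  rw [h1, h2] at h
  have hs := J_susp (F := F) (G := G) (X := X) hpq hnpq
  refine ⟨h.1, ?_, fun i => ?_⟩
  · rw [h.2 0, hs.1]
  · rw [h.2 (i + 1), hs.2 i]

/-- the join of a homology sphere with a cycle is a homology sphere -/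
theorem jn_sph (hm : 4 ≤ m) {d : ℕ} (hS : Sph F d G) : Sph F (d + 2) (jn G m) := by
  classical
  intro T hT i
  set R : Finset V := Finset.univ.filter (fun x => (il x : V ⊕ₗ Fin m) ∈ T) with hR
  set U : Finset (Fin m) := Finset.univ.filter (fun a => (ir a : V ⊕ₗ Fin m) ∈ T) with hU
  have hTe : T = R.map il ∪ U.map ir := by
    ext p
    rw [mem_union, mem_map, mem_map]
    rcases il_or_ir p with ⟨x, rfl⟩ | ⟨a, rfl⟩
    · constructor
      · intro h
        exact Or.inl ⟨x, mem_filter.mpr ⟨mem_univ _, h⟩, rfl⟩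
      · rintro (⟨y, hy, h⟩ | ⟨b, _, h⟩)
        · rw [← h]
          exact (mem_filter.mp hy).2
        · exact absurd h.symm lr_ne
    · constructor
      · intro h
        exact Or.inr ⟨a, mem_filter.mpr ⟨mem_univ _, h⟩, rfl⟩
      · rintro (⟨y, _, h⟩ | ⟨b, hb, h⟩)
        · exact absurd h lr_ne
        · rw [← h]
          exact (mem_filter.mp hb).2
  have hTc : T.card = R.card + U.card := by
    rw [hTe, card_union_of_disjoint, card_map, card_map]
    rw [Finset.disjoint_left]
    intro p hp hp2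
    rw [mem_map] at hp hp2
    obtain ⟨x, _, rfl⟩ := hp
    obtain ⟨a, _, h⟩ := hp2
    exact lr_ne h.symm
  have hRc : G.IsClique (R : Set V) := by
    intro x hx y hy hxy
    rw [hR, coe_filter] at hx hy
    exact adj_ll.mp (hT hx.2 hy.2 fun h => hxy (il.injective h))
  have hUc : ∀ a ∈ U, ∀ b ∈ U, a ≠ b → cadj m a b := by
    intro a ha b hb hab
    rw [hU, mem_filter] at ha hb
    exact adj_rr.mp (hT ha.2 hb.2 fun h => hab (ir.injective h))
  have hl : lnk (jn G m) T = J (lnk G R) {b | ∀ a ∈ U, cadj m b a} := by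
    refine J_ext (fun x => ?_) (fun b => ?_)
    · constructor
      · intro h u hu
        exact adj_ll.mp (h (il u) (by rw [hTe]; exact mem_union_left _ (mem_map_of_mem _ hu)))
      · intro h p hp
        rw [hTe, mem_union, mem_map, mem_map] at hp
        rcases hp with ⟨u, hu, rfl⟩ | ⟨a, _, rfl⟩
        · exact adj_ll.mpr (h u hu)
        · exact adj_lr
    · constructor
      · intro h u hu
        exact adj_rr.mp (h (ir u) (by rw [hTe]; exact mem_union_right _ (mem_map_of_mem _ hu)))
      · intro h p hp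
        rw [hTe, mem_union, mem_map, mem_map] at hp
        rcases hp with ⟨u, _, rfl⟩ | ⟨a, ha, rfl⟩
        · exact adj_rl
        · exact adj_rr.mpr (h a ha)
  have hRd := hS.card hRc
  have hSR := hS R hRc
  rw [hl, hTc]
  rcases Nat.lt_or_ge U.card 2 with h2 | h2
  · rcases Nat.eq_zero_or_pos U.card with h3 | h3
    · -- no vertex of the cycle
      rw [Finset.card_eq_zero] at h3
      have h4 : {b | ∀ a ∈ U, cadj m b a} = (Set.univ : Set (Fin m)) := by
        ext b
        simp [h3]
      rw [h4, h3, card_empty, add_zero]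
      have h5 := J_cyc (F := F) (G := G) hm (lnk G R)
      rcases i with _ | _ | i
      · rw [h5.1, if_neg (by omega)]
      · rw [h5.2.1, if_neg (by omega)]
      · rw [h5.2.2 i, hSR i]
        have : (i + R.card = d) ↔ (i + 1 + 1 + R.card = d + 2) := by omega
        simp only [this]
    · -- one vertex
      have h4 : U.card = 1 := by omega
      rw [Finset.card_eq_one] at h4
      obtain ⟨a, ha⟩ := h4
      obtain ⟨p, q, hpq, hn, hc⟩ := cadj_nbrs hm a
      have h5 : {b | ∀ a ∈ U, cadj m b a} = ({p, q} : Set (Fin m)) := by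
        ext b
        rw [ha]
        simp only [mem_singleton, forall_eq, Set.mem_setOf_eq, Set.mem_insert_iff, Set.mem_singleton_iff]
        exact hc b
      rw [h5, ha, card_singleton]
      have h6 := J_susp (F := F) (G := G) (X := lnk G R) hpq hn
      rcases i with _ | i
      · rw [h6.1, if_neg (by omega)]
      · rw [h6.2 i, hSR i]
        have : (i + R.card = d) ↔ (i + 1 + (R.card + 1) = d + 2) := by omega
        simp only [this]
  · -- two vertices
    obtain ⟨a, ha, b, hb, hab⟩ := Finset.one_lt_card.mp (show 1 < U.card by omega)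
    have h3 : U = {a, b} := by
      ext c
      rw [mem_insert, mem_singleton]
      constructor
      · intro hc
        by_contra hcon
        push Not at hcon
        exact cadj_tri hm (hUc c hc a ha hcon.1) (hUc c hc b hb hcon.2) (hUc a ha b hb hab)
      · rintro (rfl | rfl)
        · exact ha
        · exact hb
    have h4 : {c | ∀ a ∈ U, cadj m c a} = (∅ : Set (Fin m)) := by
      ext c
      simp only [Set.mem_setOf_eq, Set.mem_empty_iff_false, iff_false]
      intro h
      exact cadj_tri hm (h a ha) (h b hb) (hUc a ha b hb hab)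
    have h5 : U.card = 2 := by
      rw [h3, card_pair hab]
    rw [h4, J_empty, betti_il, hSR i, h5]
    have : (i + R.card = d) ↔ (i + (R.card + 2) = d + 2) := by omega
    simp only [this]

/-! ## Face polynomials -/

theorem fp_il (X : Set V) : fp (jn G m) (il '' X) = fp G X := fp_map il (fun _ _ _ _ => Iff.rfl)

/-- adding a vertex of the cycle -/
theorem fp_J_insert {X : Set V} {Y Z : Set (Fin m)} {p : Fin m} (hp : p ∉ Y)
    (h : ∀ c, c ∈ Z ↔ c ∈ Y ∧ cadj m p c) :
    fp (jn G m) (J X (insert p Y)) = fp (jn G m) (J X Y) + Polynomial.X * fp (jn G m) (J X Z) := by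
  have h1 : J X (insert p Y) = insert (ir p) (J X Y) := by
    symm
    refine J_ext (fun x => ?_) (fun a => ?_)
    · rw [Set.mem_insert_iff, il_mem]
      exact ⟨fun h2 => h2.resolve_left lr_ne, Or.inr⟩
    · rw [Set.mem_insert_iff, ir_mem, Set.mem_insert_iff]
      exact or_congr_left ⟨fun h2 => (ir (V := V)).injective h2, fun h2 => by rw [h2]⟩
  have h2 : J X Y ∩ (jn G m).neighborSet (ir p) = J X Z := by
    refine J_ext (fun x => ?_) (fun a => ?_)
    · rw [Set.mem_inter_iff, il_mem]
      exact ⟨fun h3 => h3.1, fun h3 => ⟨h3, adj_rl (G := G) (a := p) (x := x)⟩⟩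
    · rw [Set.mem_inter_iff, ir_mem, h a]
      exact Iff.rfl
  have h4 : (ir p : V ⊕ₗ Fin m) ∉ J X Y := fun h3 => hp ((ir_mem (X := X)).mp h3)
  rw [h1, fp_insert h4, h2]

theorem fp_J_single (X : Set V) (p : Fin m) :
    fp (jn G m) (J X {p}) = (1 + Polynomial.X) * fp G X := by
  have h := fp_J_insert (G := G) (X := X) (Y := ∅) (Z := ∅) (p := p) (by simp) (by simp)
  rw [J_empty, fp_il, insert_empty_eq] at h
  rw [h]
  ring

theorem fp_J_pair (X : Set V) {p q : Fin m} (hpq : p ≠ q) (hn : ¬ cadj m p q) :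
    fp (jn G m) (J X {p, q}) = (1 + 2 * Polynomial.X) * fp G X := by
  have h := fp_J_insert (G := G) (X := X) (Y := {q}) (Z := ∅) (p := p) (by simpa using hpq) (by
    intro c
    simp only [Set.mem_empty_iff_false, Set.mem_singleton_iff, false_iff, not_and]
    rintro rfl
    exact hn)
  rw [J_empty, fp_il, fp_J_single] at h
  rw [h]
  ring

theorem fp_arc (hm : 4 ≤ m) (X : Set V) : ∀ j, j + 2 ≤ m → fp (jn G m) (J X (arc m j)) =
    (1 + Polynomial.X) * (1 + (j : Polynomial ℤ) * Polynomial.X) * fp G X := by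
  intro j
  induction j with
  | zero =>
    intro _
    have h1 : arc m 0 = {(⟨0, by omega⟩ : Fin m)} := by
      ext c
      simp only [arc, Set.mem_setOf_eq, Set.mem_singleton_iff, Fin.ext_iff]
      omega
    rw [h1, fp_J_single]
    simp
  | succ j ih =>
    intro hj
    have h := fp_J_insert (G := G) (X := X) (Y := arc m j) (Z := {(⟨j, by omega⟩ : Fin m)})
      (p := ⟨j + 1, by omega⟩) (by simp [arc]) (by
        intro c
        have := c.isLt
        simp only [arc, Set.mem_singleton_iff, Set.mem_setOf_eq, cadj, ne_eq, Fin.ext_iff]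
        omega)
    have h1 : insert (⟨j + 1, by omega⟩ : Fin m) (arc m j) = arc m (j + 1) := by
      ext c
      simp only [arc, Set.mem_insert_iff, Set.mem_setOf_eq, Fin.ext_iff]
      omega
    rw [h1, ih (by omega), fp_J_single] at h
    rw [h]
    push_cast
    ring

/-- the face polynomial of the join with a cycle -/
theorem fp_jn (hm : 4 ≤ m) : fp (jn G m) Set.univ =
    (1 + (m : Polynomial ℤ) * Polynomial.X + (m : Polynomial ℤ) * Polynomial.X ^ 2) * fp G Set.univ := by
  have h := fp_J_insert (G := G) (X := Set.univ) (Y := arc m (m - 2))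
    (Z := {(⟨0, by omega⟩ : Fin m), ⟨m - 2, by omega⟩}) (p := ⟨m - 1, by omega⟩) (by
      simp only [arc, Set.mem_setOf_eq]
      omega) (by
      intro c
      have := c.isLt
      simp only [arc, Set.mem_insert_iff, Set.mem_singleton_iff, Set.mem_setOf_eq, cadj, ne_eq, Fin.ext_iff]
      omega)
  have h1 : insert (⟨m - 1, by omega⟩ : Fin m) (arc m (m - 2)) = Set.univ := by
    ext c
    have := c.isLt
    simp only [arc, Set.mem_insert_iff, Set.mem_setOf_eq, Fin.ext_iff, Set.mem_univ, iff_true]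
    omega
  have h2 : J (Set.univ : Set V) (Set.univ : Set (Fin m)) = Set.univ := by
    symm
    exact J_ext (fun x => by simp) (fun a => by simp)
  rw [h1, h2, fp_arc hm _ _ (by omega), fp_J_pair] at h
  · rw [h]
    obtain ⟨k, rfl⟩ : ∃ k, m = k + 2 := ⟨m - 2, by omega⟩
    have : k + 2 - 2 = k := by omega
    rw [this]
    push_cast
    ring
  · rw [ne_eq, Fin.ext_iff]
    show ¬ (0 = m - 2)
    omega
  · rintro ⟨_, h⟩
    simp only at h
    omega

end

end Pool.Agent.R580.CD
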