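import Pool.Agent.R580.CD.Amp

/-!
# The Dehn–Sommerville relations for flag homology spheres
-/

set_option autoImplicit false
set_option linter.unusedSectionVars false

namespace Pool.Agent.R580.CD

open Finset Module Pool.Agent.W907.SG

section

variable {V : Type} [Fintype V] [LinearOrder V] {F : Type} [Field F]

open Classical in
theorem finrank_CC (G : SimpleGraph V) (i : ℕ) : finrank F (CC F G Set.univ i) =
    (Finset.univ.filter (fun T : Finset V => G.IsClique (T : Set V) ∧ T.card = i)).card := by
  have e : CC F G Set.univ i ≃ₗ[F] ({T : Finset V // G.IsClique (T : Set V) ∧ T.card = i} → F) :=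
    { toFun := fun c T => c.1 T.1
      map_add' := fun _ _ => rfl
      map_smul' := fun _ _ => rfl
      invFun := fun g => ⟨fun T => if h : G.IsClique (T : Set V) ∧ T.card = i then g ⟨T, h⟩ else 0,
        fun T hT => dif_neg fun h => hT ⟨h.1, Set.subset_univ _, h.2⟩⟩
      left_inv := by
        intro c
        apply Subtype.ext
        funext T
        by_cases h : G.IsClique (T : Set V) ∧ T.card = i
        · exact dif_pos h
        · refine (dif_neg h).trans ?_
          exact (c.2 T fun h2 => h ⟨h2.1, h2.2.2⟩).symm
      right_inv := by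
        intro g
        funext T
        exact dif_pos T.2 }
  rw [LinearEquiv.finrank_eq e, Module.finrank_fintype_fun_eq_card, Fintype.card_subtype]

theorem finrank_succ (G : SimpleGraph V) (A : Set V) (i : ℕ) :
    finrank F (CC F G A (i + 1)) = finrank F (Zy F G A (i + 1)) + finrank F (By F G A i) := by
  have h := LinearMap.finrank_range_add_finrank_ker ((bd F).domRestrict (CC F G A (i + 1)))
  have h1 : LinearMap.range ((bd F).domRestrict (CC F G A (i + 1))) = By F G A i := by
    rw [LinearMap.range_domRestrict]
    rfl
  have h2 : finrank F (LinearMap.ker ((bd F).domRestrict (CC F G A (i + 1)))) =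
      finrank F (Zy F G A (i + 1)) := by
    have h3 : (LinearMap.ker ((bd F).domRestrict (CC F G A (i + 1)))) =
        (Zy F G A (i + 1)).comap (CC F G A (i + 1)).subtype := by
      ext z
      rw [LinearMap.mem_ker, Submodule.mem_comap]
      exact ⟨fun h4 => ⟨z.2, h4⟩, fun h4 => h4.2⟩
    rw [h3]
    exact (Submodule.comapSubtypeEquivOfLe inf_le_left).finrank_eq
  rw [h1, h2] at h
  omega

theorem finrank_zero (G : SimpleGraph V) (A : Set V) :
    finrank F (CC F G A 0) = finrank F (Zy F G A 0) := by
  have h : CC F G A 0 = Zy F G A 0 := by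
    refine le_antisymm (fun z hz => ⟨hz, ?_⟩) inf_le_left
    show bd F z = 0
    funext T
    rw [bd_apply, Pi.zero_apply]
    refine Finset.sum_eq_zero fun v _ => ?_
    rw [hz (insert v T), smul_zero]
    rintro ⟨_, _, h⟩
    exact Finset.insert_ne_empty v T (Finset.card_eq_zero.mp h)
  rw [h]

theorem euler_sum (G : SimpleGraph V) (A : Set V) : ∀ N : ℕ,
    ∑ i ∈ Finset.range (N + 1), (-1 : ℤ) ^ i * (finrank F (CC F G A i) : ℤ) =
      ∑ i ∈ Finset.range (N + 1), (-1 : ℤ) ^ i * (betti F G A i : ℤ) +
        (-1) ^ N * (finrank F (By F G A N) : ℤ) := by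
  have hb : ∀ i, (betti F G A i : ℤ) = finrank F (Zy F G A i) - finrank F (By F G A i) := by
    intro i
    unfold betti
    have := Submodule.finrank_mono (By_le_Zy (F := F) G A i)
    omega
  intro N
  induction N with
  | zero =>
    rw [Finset.sum_range_one, Finset.sum_range_one, hb, finrank_zero]
    ring
  | succ N ih =>
    rw [Finset.sum_range_succ, ih, Finset.sum_range_succ _ (N + 1), hb, finrank_succ]
    push_cast
    ring

/-- the Euler characteristic -/
theorem Sph.euler {d : ℕ} {G : SimpleGraph V} (hS : Sph F d G) :
    (fp G Set.univ).eval (-1) = (-1) ^ d := by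
  classical
  have hlnk : lnk G (∅ : Finset V) = Set.univ := by
    ext x
    simp [lnk]
  obtain ⟨hd⟩ : Nonempty (d ≤ Fintype.card V) := by
    refine ⟨?_⟩
    by_contra hcon
    push Not at hcon
    have : ∀ k : ℕ, k ≤ d → ∃ T : Finset V, G.IsClique (T : Set V) ∧ T.card = k := by
      intro k
      induction k with
      | zero => exact fun _ => ⟨∅, by simp, rfl⟩
      | succ k ih =>
        intro hk
        obtain ⟨T, h1, h2⟩ := ih (by omega)
        obtain ⟨x, hx⟩ := hS.exists_mem h1 (by omega)
        exact ⟨insert x T, clique_insert h1 hx, by rw [card_insert_of_notMem (notMem_of_lnk hx), h2]⟩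
    obtain ⟨T, _, h2⟩ := this d le_rfl
    have := Finset.card_le_univ T
    omega
  have h1 := euler_sum (F := F) G Set.univ (Fintype.card V)
  have h2 : finrank F (By F G Set.univ (Fintype.card V)) = 0 := by
    have h3 : CC F G Set.univ (Fintype.card V + 1) = ⊥ := by
      rw [eq_bot_iff]
      intro c hc
      rw [Submodule.mem_bot]
      funext T
      refine hc T ?_
      rintro ⟨_, _, h4⟩
      have := Finset.card_le_univ T
      omega
    unfold By
    rw [h3, Submodule.map_bot, finrank_bot]
  rw [h2, Nat.cast_zero, mul_zero, add_zero] at h1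
  have h3 : ∑ i ∈ Finset.range (Fintype.card V + 1), (-1 : ℤ) ^ i * (betti F G Set.univ i : ℤ) =
      (-1) ^ d := by
    rw [Finset.sum_eq_single d]
    · have h4 := hS ∅ (by simp) d
      rw [hlnk, if_pos (by simp)] at h4
      rw [h4]
      simp
    · intro i _ hi
      have h4 := hS ∅ (by simp) i
      rw [hlnk, if_neg (by simpa using hi)] at h4
      rw [h4]
      simp
    · intro h4
      exact absurd (Finset.mem_range.2 (by omega)) h4
  rw [h3] at h1
  rw [← h1]
  unfold fp
  rw [Polynomial.eval_finset_sum, ← Finset.sum_fiberwise_of_maps_to (s := Finset.univ)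
    (t := Finset.range (Fintype.card V + 1)) (g := fun T : Finset V => T.card)
    (fun T _ => Finset.mem_range.2 (by
      have := Finset.card_le_univ T
      omega))]
  refine Finset.sum_congr rfl fun i _ => ?_
  rw [finrank_CC]
  have h5 : ∀ T ∈ Finset.univ.filter (fun T : Finset V => T.card = i),
      Polynomial.eval (-1 : ℤ) (if G.IsClique (T : Set V) ∧ (T : Set V) ⊆ Set.univ then
        Polynomial.X ^ T.card else 0) = if G.IsClique (T : Set V) then (-1) ^ i else 0 := by
    intro T hT
    rw [mem_filter] at hT
    by_cases h6 : G.IsClique (T : Set V)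
    · rw [if_pos ⟨h6, Set.subset_univ _⟩, if_pos h6, Polynomial.eval_pow, Polynomial.eval_X, hT.2]
    · rw [if_neg (fun h => h6 h.1), if_neg h6, Polynomial.eval_zero]
  rw [Finset.sum_congr rfl h5, ← Finset.sum_filter, Finset.sum_const, nsmul_eq_mul, mul_comm]
  congr 2
  rw [Finset.filter_filter]
  congr 1
  ext T
  simp only [mem_filter, mem_univ, true_and]
  tauto

/-- the link of a vertex -/
theorem Sph.link {d : ℕ} {G : SimpleGraph V} (hS : Sph F (d + 1) G) (v : V) :
    SphOn F d G (G.neighborSet v) := by
  intro T hT hTN i
  have hv : v ∈ lnk G T := fun u hu => hTN hu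
  have h1 : G.neighborSet v ∩ lnk G T = lnk G (insert v T) := by
    rw [lnk_insert, Set.inter_comm]
  rw [h1, hS _ (clique_insert hT hv) i, card_insert_of_notMem (notMem_of_lnk hv)]
  have : (i + (T.card + 1) = d + 1) ↔ (i + T.card = d) := by omega
  simp only [this]

/-- the derivative of the face polynomial -/
theorem fp_deriv (G : SimpleGraph V) :
    Polynomial.derivative (fp G Set.univ) = ∑ v : V, fp G (G.neighborSet v) := by
  classical
  have h1 : ∀ v : V, fp G (G.neighborSet v) = ∑ T : Finset V,
      if G.IsClique (T : Set V) ∧ v ∈ T then Polynomial.X ^ (T.card - 1) else 0 := by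
    intro v
    unfold fp
    rw [← Finset.sum_filter, ← Finset.sum_filter]
    refine Finset.sum_bij (fun T _ => insert v T) ?_ ?_ ?_ ?_
    · intro T hT
      rw [mem_filter] at hT ⊢
      refine ⟨mem_univ _, ?_, mem_insert_self _ _⟩
      rw [Finset.coe_insert, SimpleGraph.isClique_insert]
      exact ⟨hT.2.1, fun b hb _ => hT.2.2 hb⟩
    · intro T hT T' hT' h
      rw [mem_filter] at hT hT'
      have h2 : ∀ {R : Finset V}, (R : Set V) ⊆ G.neighborSet v → v ∉ R := by
        intro R hR hvR
        exact G.loopless.irrefl _ (hR hvR)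
      have h3 := congrArg (fun T => Finset.erase T v) h
      simp only [erase_insert (h2 hT.2.2), erase_insert (h2 hT'.2.2)] at h3
      exact h3
    · intro T hT
      rw [mem_filter] at hT
      refine ⟨T.erase v, ?_, insert_erase hT.2.2⟩
      rw [mem_filter]
      refine ⟨mem_univ _, hT.2.1.subset (by simp), fun x hx => ?_⟩
      have hx' : x ≠ v ∧ x ∈ T := by simpa [and_comm] using hx
      exact hT.2.1 hT.2.2 hx'.2 hx'.1.symm
    · intro T hT
      rw [mem_filter] at hT
      have h2 : v ∉ T := fun h => G.loopless.irrefl _ (hT.2.2 h)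
      rw [card_insert_of_notMem h2, Nat.add_sub_cancel]
  rw [Finset.sum_congr rfl fun v _ => h1 v, Finset.sum_comm]
  unfold fp
  rw [Polynomial.derivative_sum]
  refine Finset.sum_congr rfl fun T _ => ?_
  by_cases hT : G.IsClique (T : Set V)
  · rw [if_pos ⟨hT, Set.subset_univ _⟩, Polynomial.derivative_X_pow]
    have h2 : ∀ v ∈ (Finset.univ : Finset V), (if G.IsClique (T : Set V) ∧ v ∈ T then
        (Polynomial.X : Polynomial ℤ) ^ (T.card - 1) else 0) =
        if v ∈ T then Polynomial.X ^ (T.card - 1) else 0 := by
      intro v _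
      simp only [hT, true_and]
    rw [Finset.sum_congr rfl h2, ← Finset.sum_filter, Finset.sum_const, Finset.filter_mem_eq_inter,
      Finset.univ_inter, nsmul_eq_mul]
    simp
  · rw [if_neg (fun h => hT h.1), Polynomial.derivative_zero]
    symm
    refine Finset.sum_eq_zero fun v _ => ?_
    rw [if_neg (fun h => hT h.1)]

theorem fp_eval_zero (G : SimpleGraph V) (A : Set V) : (fp G A).eval 0 = 1 := by
  classical
  unfold fp
  rw [Polynomial.eval_finset_sum, Finset.sum_eq_single ∅]
  · rw [if_pos (by simp)]
    simp
  · intro T _ hT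
    split_ifs
    · rw [Polynomial.eval_pow, Polynomial.eval_X, zero_pow]
      rw [ne_eq, Finset.card_eq_zero]
      exact hT
    · exact Polynomial.eval_zero
  · intro h
    exact absurd (mem_univ _) h

end

/-- the Dehn–Sommerville relations -/
theorem dehn_sommerville {F : Type} [Field F] : ∀ (d : ℕ) (V : Type) [Fintype V] [LinearOrder V]
    (G : SimpleGraph V), Sph F d G →
    (fp G Set.univ).comp (-1 - Polynomial.X) = (-1) ^ d * fp G Set.univ := by
  intro d
  induction d with
  | zero =>
    intro V _ _ G hS
    have h1 : IsEmpty V := by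
      by_contra hne
      rw [not_isEmpty_iff] at hne
      obtain ⟨v⟩ := hne
      have := hS.card (T := {v}) (by simp)
      simp at this
    have h2 : fp G Set.univ = 1 := by
      classical
      unfold fp
      rw [Finset.sum_eq_single ∅]
      · rw [if_pos (by simp)]
        simp
      · intro T _ hT
        exact absurd (Finset.eq_empty_of_isEmpty T) hT
      · intro h
        exact absurd (mem_univ _) h
    rw [h2]
    simp
  | succ d ih =>
    intro V _ _ G hS
    classical
    have h1 : ∀ v : V, (fp G (G.neighborSet v)).comp (-1 - Polynomial.X) =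
        (-1) ^ d * fp G (G.neighborSet v) := by
      intro v
      have h2 := ih (G.neighborSet v) (G.induce (G.neighborSet v)) (hS.link v).induce
      rw [fp_univ_induce] at h2
      exact h2
    set p := fp G Set.univ with hp
    have h3 : Polynomial.derivative (p.comp (-1 - Polynomial.X) - (-1) ^ (d + 1) * p) = 0 := by
      have h4 : Polynomial.derivative ((-1 : Polynomial ℤ) - Polynomial.X) = -1 := by
        rw [Polynomial.derivative_sub, Polynomial.derivative_neg, Polynomial.derivative_one,
          Polynomial.derivative_X]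
        ring
      have h5 : Polynomial.derivative ((-1 : Polynomial ℤ) ^ (d + 1) * p) =
          (-1) ^ (d + 1) * Polynomial.derivative p := by
        rw [Polynomial.derivative_mul]
        have h6 : Polynomial.derivative ((-1 : Polynomial ℤ) ^ (d + 1)) = 0 := by
          rw [Polynomial.derivative_pow, Polynomial.derivative_neg, Polynomial.derivative_one]
          simp
        rw [h6, zero_mul, zero_add]
      have h9 : (∑ v : V, fp G (G.neighborSet v)).comp (-1 - Polynomial.X) =
          ∑ v : V, (fp G (G.neighborSet v)).comp (-1 - Polynomial.X) := by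
        rw [← Polynomial.coe_compRingHom_apply, map_sum]
        rfl
      rw [Polynomial.derivative_sub, Polynomial.derivative_comp, h4, h5, hp, fp_deriv,
        h9, Finset.sum_congr rfl (fun v _ => h1 v), ← Finset.mul_sum, pow_succ]
      ring
    have h7 := Polynomial.derivative_eq_zero.mp h3
    rw [Polynomial.natDegree_eq_zero] at h7
    obtain ⟨c, hc⟩ := h7
    have h8 := congrArg (Polynomial.eval 0) hc
    rw [Polynomial.eval_C, Polynomial.eval_sub, Polynomial.eval_comp, Polynomial.eval_mul,
      Polynomial.eval_pow, Polynomial.eval_neg, Polynomial.eval_one, Polynomial.eval_sub,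
      Polynomial.eval_neg, Polynomial.eval_one, Polynomial.eval_X, sub_zero, hS.euler, hp,
      fp_eval_zero, mul_one, sub_self] at h8
    rw [h8, map_zero] at hc
    exact sub_eq_zero.mp hc.symm

end Pool.Agent.R580.CD
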