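import Pool.Agent.R580.CD.Trans

/-!
# The double of a complex along the complement of a vertex
-/

set_option autoImplicit false
set_option linter.unusedSectionVars false

namespace Pool.Agent.R580.CD

open Finset Module Pool.Agent.W907.SG

section

variable {V W : Type} [Fintype V] [LinearOrder V] [Fintype W] [LinearOrder W] {F : Type} [Field F]

/-- `Sph` for the complex of the cliques in the set `U` -/
def SphOn (F : Type) [Field F] (d : ℕ) (H : SimpleGraph W) (U : Set W) : Prop :=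
  ∀ T : Finset W, H.IsClique (T : Set W) → (T : Set W) ⊆ U → ∀ i : ℕ,
    betti F H (U ∩ lnk H T) i = if i + T.card = d then 1 else 0

theorem lnk_map {G : SimpleGraph V} {H : SimpleGraph W} (f : V ↪ W) {A : Set V}
    (hfa : ∀ x ∈ A, ∀ y ∈ A, G.Adj x y ↔ H.Adj (f x) (f y)) {T : Finset V} (hT : (T : Set V) ⊆ A) :
    f '' A ∩ lnk H (T.map f) = f '' (A ∩ lnk G T) := by
  ext w
  constructor
  · rintro ⟨⟨x, hx, rfl⟩, h⟩
    exact ⟨x, ⟨hx, fun u hu => (hfa x hx u (hT hu)).mpr (h (f u) (by simpa using hu))⟩, rfl⟩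
  · rintro ⟨x, ⟨hx, hx2⟩, rfl⟩
    refine ⟨⟨x, hx, rfl⟩, fun w hw => ?_⟩
    rw [mem_map] at hw
    obtain ⟨u, hu, rfl⟩ := hw
    exact (hfa x hx u (hT hu)).mp (hx2 u hu)

theorem fp_univ_induce (H : SimpleGraph W) (U : Set W) [Fintype U] :
    fp (H.induce U) Set.univ = fp H U := by
  have h := fp_map (G := H.induce U) (H := H) (Function.Embedding.subtype _) (A := Set.univ)
    (fun x _ y _ => Iff.rfl)
  rw [← h]
  congr 1
  simp

theorem SphOn.induce {d : ℕ} {H : SimpleGraph W} {U : Set W} [Fintype U] (h : SphOn F d H U) :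
    Sph F d (H.induce U) := by
  intro T hT i
  set f : U ↪ W := Function.Embedding.subtype _ with hf
  have hfa : ∀ x ∈ (Set.univ : Set U), ∀ y ∈ (Set.univ : Set U), (H.induce U).Adj x y ↔ H.Adj (f x) (f y) :=
    fun x _ y _ => Iff.rfl
  have hmono : StrictMono f := fun a b hab => hab
  have hU : f '' (Set.univ : Set U) = U := by
    simp [hf]
  have h1 := lnk_map (G := H.induce U) (H := H) f hfa (Set.subset_univ (T : Set U))
  rw [hU, Set.univ_inter] at h1
  have h2 := betti_map (F := F) (G := H.induce U) (H := H) f hmono (A := lnk (H.induce U) T)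
    (fun x _ y _ => Iff.rfl) i
  rw [← h2, ← h1, h (T.map f) ((clique_map f hfa (Set.subset_univ _)).mpr hT) (by
    rw [Finset.coe_map]
    rintro _ ⟨x, _, rfl⟩
    exact x.2) i, card_map]

/-- the first copy -/
def ic0 : V ↪ V ×ₗ Bool := ⟨fun x => toLex (x, false), fun x y h => by
  have := congrArg (fun p => (ofLex p).1) h
  exact this⟩

open Classical in
/-- the second copy -/
noncomputable def ic1 (G : SimpleGraph V) (v : V) : V ↪ V ×ₗ Bool :=
  ⟨fun x => toLex (x, if G.Adj v x then false else true), fun x y h => by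
    have := congrArg (fun p => (ofLex p).1) h
    exact this⟩

theorem ic0_mono : StrictMono (ic0 : V ↪ V ×ₗ Bool) := by
  intro x y hxy
  exact Prod.Lex.toLex_lt_toLex.mpr (Or.inl hxy)

theorem ic1_mono (G : SimpleGraph V) (v : V) : StrictMono (ic1 G v) := by
  intro x y hxy
  exact Prod.Lex.toLex_lt_toLex.mpr (Or.inl hxy)

/-- the first half -/
def hA (v : V) : Set (V ×ₗ Bool) := ic0 '' {v}ᶜ

/-- the second half -/
def hB (G : SimpleGraph V) (v : V) : Set (V ×ₗ Bool) := ic1 G v '' {v}ᶜ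

/-- the graph of the double -/
def dbl (G : SimpleGraph V) (v : V) : SimpleGraph (V ×ₗ Bool) where
  Adj p q := G.Adj (ofLex p).1 (ofLex q).1 ∧ ((p ∈ hA v ∧ q ∈ hA v) ∨ (p ∈ hB G v ∧ q ∈ hB G v))
  symm := ⟨fun p q h => ⟨h.1.symm, h.2.imp And.symm And.symm⟩⟩
  loopless := ⟨fun p h => G.loopless.irrefl _ h.1⟩

theorem dbl_adj0 (G : SimpleGraph V) (v : V) : ∀ x ∈ ({v}ᶜ : Set V), ∀ y ∈ ({v}ᶜ : Set V),
    G.Adj x y ↔ (dbl G v).Adj (ic0 x) (ic0 y) := fun x hx y hy =>
  ⟨fun h => ⟨h, Or.inl ⟨⟨x, hx, rfl⟩, ⟨y, hy, rfl⟩⟩⟩, fun h => h.1⟩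

theorem dbl_adj1 (G : SimpleGraph V) (v : V) : ∀ x ∈ ({v}ᶜ : Set V), ∀ y ∈ ({v}ᶜ : Set V),
    G.Adj x y ↔ (dbl G v).Adj (ic1 G v x) (ic1 G v y) := fun x hx y hy =>
  ⟨fun h => ⟨h, Or.inr ⟨⟨x, hx, rfl⟩, ⟨y, hy, rfl⟩⟩⟩, fun h => h.1⟩

theorem dbl_sep (G : SimpleGraph V) (v : V) : ∀ a ∈ hA v, a ∉ hB G v → ∀ b ∈ hB G v, b ∉ hA v →
    ¬ (dbl G v).Adj a b := by
  rintro a _ h2 b _ h4 ⟨_, h5 | h5⟩
  · exact h4 h5.2
  · exact h2 h5.1

theorem ic_eq (G : SimpleGraph V) (v : V) {x : V} (h : G.Adj v x) : ic1 G v x = ic0 x := by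
  show toLex (x, _) = toLex (x, false)
  rw [if_pos h]

theorem ic_ne (G : SimpleGraph V) (v : V) {x y : V} (h : ic1 G v x = ic0 y) : x = y ∧ G.Adj v x := by
  classical
  have h1 := congrArg (fun p => (ofLex p).1) h
  have h1 : x = y := h1
  subst h1
  have h2 := congrArg (fun p => (ofLex p).2) h
  refine ⟨rfl, ?_⟩
  by_contra h3
  have h4 : (if G.Adj v x then false else true) = false := h2
  rw [if_neg h3] at h4
  exact Bool.noConfusion h4

theorem hAB (G : SimpleGraph V) (v : V) : hA v ∩ hB G v = ic0 '' (G.neighborSet v) := by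
  ext p
  constructor
  · rintro ⟨⟨x, hx, rfl⟩, ⟨y, hy, hxy⟩⟩
    obtain ⟨rfl, h1⟩ := ic_ne G v hxy
    exact ⟨y, h1, rfl⟩
  · rintro ⟨x, hx, rfl⟩
    have h1 : x ∈ ({v}ᶜ : Set V) := by
      rintro rfl
      exact G.loopless.irrefl _ hx
    exact ⟨⟨x, h1, rfl⟩, ⟨x, h1, ic_eq G v hx⟩⟩

theorem dbl_sphOn {d : ℕ} {G : SimpleGraph V} (hS : Sph F d G) (v : V) :
    SphOn F d (dbl G v) (hA v ∪ hB G v) := by
  intro T hT hTU i
  have hcard0 : ∀ R : Finset V, (R.map ic0).card = R.card := fun R => card_map _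
  -- the links in the two halves
  have l0 : ∀ {R : Finset V}, (R : Set V) ⊆ ({v}ᶜ : Set V) → hA v ∩ lnk (dbl G v) (R.map ic0) =
      ic0 '' (lnk G R \ {v}) := by
    intro R hR
    have := lnk_map (G := G) (H := dbl G v) ic0 (dbl_adj0 G v) hR
    rw [show lnk G R \ {v} = ({v}ᶜ : Set V) ∩ lnk G R by ext x; simp [and_comm]]
    exact this
  have l1 : ∀ {R : Finset V}, (R : Set V) ⊆ ({v}ᶜ : Set V) → hB G v ∩ lnk (dbl G v) (R.map (ic1 G v)) =
      ic1 G v '' (lnk G R \ {v}) := by
    intro R hR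
    have := lnk_map (G := G) (H := dbl G v) (ic1 G v) (dbl_adj1 G v) hR
    rw [show lnk G R \ {v} = ({v}ᶜ : Set V) ∩ lnk G R by ext x; simp [and_comm]]
    exact this
  have b0 : ∀ (R : Finset V) (j : ℕ), betti F (dbl G v) (ic0 '' (lnk G R \ {v})) j =
      betti F G (lnk G R \ {v}) j := fun R j =>
    betti_map ic0 ic0_mono (fun x hx y hy => dbl_adj0 G v x hx.2 y hy.2) j
  have b1 : ∀ (R : Finset V) (j : ℕ), betti F (dbl G v) (ic1 G v '' (lnk G R \ {v})) j =
      betti F G (lnk G R \ {v}) j := fun R j =>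
    betti_map (ic1 G v) (ic1_mono G v) (fun x hx y hy => dbl_adj1 G v x hx.2 y hy.2) j
  by_cases hTA : (T : Set (V ×ₗ Bool)) ⊆ hA v
  · obtain ⟨R, rfl, hR⟩ := exists_map ic0 hTA
    have hRc : G.IsClique (R : Set V) := (clique_map ic0 (dbl_adj0 G v) hR).mp hT
    by_cases hTB : ((R.map ic0 : Finset (V ×ₗ Bool)) : Set (V ×ₗ Bool)) ⊆ hB G v
    · -- in the intersection
      have hRL : ∀ x ∈ R, G.Adj v x := by
        intro x hx
        have h1 : ic0 x ∈ hA v ∩ hB G v := ⟨hTA (by simpa using hx), hTB (by simpa using hx)⟩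
        rw [hAB] at h1
        obtain ⟨y, hy, hxy⟩ := h1
        rw [← ic0.injective hxy]
        exact hy
      have hv : v ∈ lnk G R := hRL
      have hmap : R.map ic0 = R.map (ic1 G v) := by
        ext p
        rw [mem_map, mem_map]
        constructor
        · rintro ⟨x, hx, rfl⟩
          exact ⟨x, hx, ic_eq G v (hRL x hx)⟩
        · rintro ⟨x, hx, rfl⟩
          exact ⟨x, hx, (ic_eq G v (hRL x hx)).symm⟩
      set K := lnk (dbl G v) (R.map ic0) with hK
      have e1 : (hA v ∪ hB G v) ∩ K = (hA v ∩ K) ∪ (hB G v ∩ K) := Set.union_inter_distrib_right _ _ _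
      have e2 : hA v ∩ K = ic0 '' (lnk G R \ {v}) := l0 hR
      have e3 : hB G v ∩ K = ic1 G v '' (lnk G R \ {v}) := by
        rw [hK, hmap]
        exact l1 hR
      have e4 : (hA v ∩ K) ∩ (hB G v ∩ K) = ic0 '' (lnk G (insert v R)) := by
        rw [lnk_insert]
        have : (hA v ∩ K) ∩ (hB G v ∩ K) = (hA v ∩ hB G v) ∩ (hA v ∩ K) := by
          ext p
          simp only [Set.mem_inter_iff]
          tauto
        rw [this, hAB, e2]
        ext p
        constructor
        · rintro ⟨⟨x, hx, rfl⟩, ⟨y, hy, hxy⟩⟩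
          have := ic0.injective hxy
          subst this
          exact ⟨y, ⟨hy.1, hx⟩, rfl⟩
        · rintro ⟨x, ⟨hx1, hx2⟩, rfl⟩
          refine ⟨⟨x, hx2, rfl⟩, ⟨x, ⟨hx1, ?_⟩, rfl⟩⟩
          rintro rfl
          exact G.loopless.irrefl _ hx2
      have hu := union (F := F) (G := dbl G v) (A := hA v ∩ K) (B := hB G v ∩ K) (by
          intro a ha haB b hb hbA
          exact dbl_sep G v a ha.1 (fun h => haB ⟨h, ha.2⟩) b hb.1 (fun h => hbA ⟨h, hb.2⟩))
        (fun j => by
          rw [← betti_eq_zero, e2, b0, betti_eq_zero]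
          exact hS.del hRc hv j)
        (fun j => by
          rw [← betti_eq_zero, e3, b1, betti_eq_zero]
          exact hS.del hRc hv j)
      have hc := hS.card (clique_insert hRc hv)
      rw [card_insert_of_notMem (notMem_of_lnk hv)] at hc
      rw [e1, hcard0]
      rcases i with _ | i
      · rw [hu.1, if_neg (by omega)]
      · rw [hu.2 i, e4]
        have h2 : betti F (dbl G v) (ic0 '' (lnk G (insert v R))) i = betti F G (lnk G (insert v R)) i := by
          refine betti_map ic0 ic0_mono (fun x hx y hy => dbl_adj0 G v x ?_ y ?_) i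
          · rintro rfl
            exact notMem_of_lnk hx (mem_insert_self _ _)
          · rintro rfl
            exact notMem_of_lnk hy (mem_insert_self _ _)
        rw [h2, hS _ (clique_insert hRc hv) i, card_insert_of_notMem (notMem_of_lnk hv)]
        have : (i + (R.card + 1) = d) ↔ (i + 1 + R.card = d) := by omega
        simp only [this]
    · -- in the first half only
      rw [Set.not_subset] at hTB
      obtain ⟨a, haT, haB⟩ := hTB
      have haA : a ∈ hA v := hTA haT
      have e1 : (hA v ∪ hB G v) ∩ lnk (dbl G v) (R.map ic0) = hA v ∩ lnk (dbl G v) (R.map ic0) := by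
        ext p
        constructor
        · rintro ⟨_, h2⟩
          refine ⟨?_, h2⟩
          rcases (h2 a haT).2 with h3 | h3
          · exact h3.1
          · exact absurd h3.2 haB
        · rintro ⟨h1, h2⟩
          exact ⟨Or.inl h1, h2⟩
      have e2 : lnk G R \ {v} = lnk G R := by
        ext x
        refine ⟨fun h => h.1, fun h => ⟨h, ?_⟩⟩
        rintro rfl
        apply haB
        obtain ⟨y, hy, rfl⟩ := haA
        have hyR : y ∈ R := by simpa using haT
        exact ⟨y, hy, ic_eq G _ (h y hyR)⟩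
      rw [e1, l0 hR, b0, e2, hS R hRc i, hcard0]
  · -- in the second half only
    rw [Set.not_subset] at hTA
    obtain ⟨b, hbT, hbA⟩ := hTA
    have hbB : b ∈ hB G v := (hTU hbT).resolve_left hbA
    have hTB : (T : Set (V ×ₗ Bool)) ⊆ hB G v := by
      intro p hp
      by_cases hpb : p = b
      · rw [hpb]
        exact hbB
      · rcases (hT hp hbT hpb).2 with h3 | h3
        · exact absurd h3.2 hbA
        · exact h3.1
    obtain ⟨R, rfl, hR⟩ := exists_map (ic1 G v) hTB
    have hRc : G.IsClique (R : Set V) := (clique_map (ic1 G v) (dbl_adj1 G v) hR).mp hT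
    have e1 : (hA v ∪ hB G v) ∩ lnk (dbl G v) (R.map (ic1 G v)) =
        hB G v ∩ lnk (dbl G v) (R.map (ic1 G v)) := by
      ext p
      constructor
      · rintro ⟨_, h2⟩
        refine ⟨?_, h2⟩
        rcases (h2 b hbT).2 with h3 | h3
        · exact absurd h3.2 hbA
        · exact h3.1
      · rintro ⟨h1, h2⟩
        exact ⟨Or.inr h1, h2⟩
    have e2 : lnk G R \ {v} = lnk G R := by
      ext x
      refine ⟨fun h => h.1, fun h => ⟨h, ?_⟩⟩
      rintro rfl
      apply hbA
      obtain ⟨y, hy, rfl⟩ := hbB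
      have hyR : y ∈ R := by simpa using hbT
      exact ⟨y, hy, (ic_eq G _ (h y hyR)).symm⟩
    rw [e1, l1 hR, b1, e2, hS R hRc i, card_map]

/-- the face polynomial of the double -/
theorem fp_dbl (G : SimpleGraph V) (v : V) : fp (dbl G v) (hA v ∪ hB G v) =
    2 * fp G Set.univ - (1 + 2 * Polynomial.X) * fp G (G.neighborSet v) := by
  have h1 := fp_union (G := dbl G v) (dbl_sep G v)
  have h2 : fp (dbl G v) (hA v) = fp G {v}ᶜ := fp_map ic0 (dbl_adj0 G v)
  have h3 : fp (dbl G v) (hB G v) = fp G {v}ᶜ := fp_map (ic1 G v) (dbl_adj1 G v)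
  have h4 : fp (dbl G v) (hA v ∩ hB G v) = fp G (G.neighborSet v) := by
    rw [hAB]
    refine fp_map ic0 fun x hx y hy => dbl_adj0 G v x ?_ y ?_
    · rintro rfl
      exact G.loopless.irrefl _ hx
    · rintro rfl
      exact G.loopless.irrefl _ hy
  have h5 := fp_insert (G := G) (A := {v}ᶜ) (v := v) (by simp)
  have h6 : insert v ({v}ᶜ : Set V) = Set.univ := by
    ext x
    simp [em]
  have h7 : ({v}ᶜ : Set V) ∩ G.neighborSet v = G.neighborSet v := by
    ext x
    refine ⟨fun h => h.2, fun h => ⟨?_, h⟩⟩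
    rintro rfl
    exact G.loopless.irrefl _ h
  rw [h6, h7] at h5
  rw [h2, h3, h4] at h1
  linear_combination h1 - 2 * h5

end

end Pool.Agent.R580.CD
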