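import Pool.Agent.R580.CD.Gam

/-!
# Self-improvement of lower bounds for gamma-vectors
-/

set_option autoImplicit false
set_option linter.unusedSectionVars false

namespace Pool.Agent.R580.CD

open Finset Polynomial

section

variable {F : Type} [Field F]

theorem gam_zero {V : Type} [Fintype V] [LinearOrder V] {d : ℕ} {G : SimpleGraph V} (hS : Sph F d G) :
    gam d G 0 = 1 := by
  have h := coeff_Phi d (gam d G) (i := 0) (Nat.zero_le _)
  rw [← (gam_spec hS).1, Finset.range_zero, Finset.sum_empty, add_zero, coeff_zero_eq_eval_zero,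
    fp_eval_zero] at h
  exact h.symm

theorem gam_abs_le {V : Type} [Fintype V] [LinearOrder V] {d : ℕ} {G : SimpleGraph V} (hS : Sph F d G)
    {K : ℤ} (hK0 : 0 ≤ K) (hK : ∀ (γ : ℕ → ℤ) (B : ℤ), 0 ≤ B →
      (∀ l, |(Phi d γ).coeff l| ≤ B) → ∀ i, i ≤ d / 2 → |γ i| ≤ K * B) {B : ℤ} (hB : 0 ≤ B)
    (h : ∀ l, (fp G Set.univ).coeff l ≤ B) (i : ℕ) : |gam d G i| ≤ K * B := by
  by_cases hi : i ≤ d / 2
  · refine hK _ B hB (fun l => ?_) i hi
    rw [← (gam_spec hS).1, abs_of_nonneg (coeff_fp_nonneg _ _ _)]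
    exact h l
  · rw [(gam_spec hS).2 i (by omega), abs_zero]
    exact mul_nonneg hK0 hB

theorem many_doubles {V : Type} [Fintype V] [LinearOrder V] {d i : ℕ} {G : SimpleGraph V}
    (hS : Sph F (d + 1) G)
    (hpos : ∀ (W : Type) [Fintype W] [LinearOrder W] (H : SimpleGraph W), Sph F d H → ∀ i, 0 ≤ gam d H i)
    (hneg : gam (d + 1) G i < 0) : ∀ k : ℕ,
    ∃ (W : Type) (_ : Fintype W) (_ : LinearOrder W) (H : SimpleGraph W), Sph F (d + 1) H ∧
      Fintype.card W ≤ 2 ^ k * Fintype.card V ∧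
      (∀ l, (fp H Set.univ).coeff l ≤ 2 ^ k * 2 ^ Fintype.card V) ∧ gam (d + 1) H i ≤ - 2 ^ k := by
  intro k
  induction k with
  | zero => exact ⟨V, inferInstance, inferInstance, G, hS, by simp, fun l => by
      simpa using coeff_fp_le G Set.univ l, by
      rw [pow_zero]
      omega⟩
  | succ k ih =>
    obtain ⟨W, _, _, H, h1, h2, h3, h4⟩ := ih
    obtain ⟨W', i1, i2, H', h5, h6, h7, h8⟩ := gam_double h1 hpos
    refine ⟨W', i1, i2, H', h5, ?_, fun l => ?_, ?_⟩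
    · refine h6.trans ?_
      rw [pow_succ]
      nlinarith
    · refine (h7 l).trans ?_
      have := h3 l
      rw [pow_succ]
      linarith
    · refine (h8 i).trans ?_
      rw [pow_succ]
      linarith

theorem many_joins {V : Type} [Fintype V] [LinearOrder V] {d i : ℕ} {G : SimpleGraph V}
    (hS : Sph F (d + 1) G)
    (hpos : ∀ (W : Type) [Fintype W] [LinearOrder W] (H : SimpleGraph W), Sph F d H → ∀ i, 0 ≤ gam d H i)
    (hneg : gam (d + 1) G i < 0) : ∃ A : ℚ, 0 ≤ A ∧ ∀ (k x0 : ℕ), 1 ≤ x0 → ∀ t : ℕ,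
    ∃ (W : Type) (_ : Fintype W) (_ : LinearOrder W) (H : SimpleGraph W), Sph F (d + 1 + 2 * t) H ∧
      Fintype.card W ≤ 2 ^ k * (Fintype.card V + t * (4 + x0)) ∧
      (gam (d + 1 + 2 * t) H (i + t) : ℚ) ≤ - (2 ^ k * (2 ^ k * x0) ^ t * (1 - 2 ^ t * A / x0)) ∧
      ∀ i', i + t < i' → |(gam (d + 1 + 2 * t) H i' : ℚ)| ≤ 2 ^ k * (2 ^ k * x0) ^ t * (2 ^ t * A) := by
  obtain ⟨K, hK0, hK⟩ := gam_bound (d + 1)
  refine ⟨(K * 2 ^ Fintype.card V : ℤ), by positivity, fun k x0 hx0 => ?_⟩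
  set A : ℚ := ((K * 2 ^ Fintype.card V : ℤ) : ℚ) with hA
  have hA0 : 0 ≤ A := by
    rw [hA]
    positivity
  have hx0' : (1 : ℚ) ≤ x0 := by exact_mod_cast hx0
  intro t
  induction t with
  | zero =>
    obtain ⟨W, i1, i2, H, h1, h2, h3, h4⟩ := many_doubles hS hpos hneg k
    refine ⟨W, i1, i2, H, h1, by simpa using h2, ?_, fun i' _ => ?_⟩
    · have h5 : (gam (d + 1) H i : ℚ) ≤ - 2 ^ k := by exact_mod_cast h4
      have h6 : 0 ≤ (2 : ℚ) ^ k * (A / x0) := by positivity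
      simp only [Nat.mul_zero, add_zero, pow_zero, mul_one, one_mul]
      linarith
    · have h5 := gam_abs_le h1 hK0 hK (B := 2 ^ k * 2 ^ Fintype.card V) (by positivity) h3 i'
      have h6 : (|gam (d + 1) H i'| : ℚ) ≤ 2 ^ k * A := by
        have h7 : ((|gam (d + 1) H i'| : ℤ) : ℚ) ≤ ((K * (2 ^ k * 2 ^ Fintype.card V) : ℤ) : ℚ) := by
          exact_mod_cast h5
        rw [Int.cast_abs] at h7
        refine h7.trans (le_of_eq ?_)
        rw [hA]
        push_cast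
        ring
      simp only [Nat.mul_zero, add_zero, pow_zero, mul_one, one_mul]
      exact h6
  | succ t ih =>
    obtain ⟨W, _, _, H, h1, h2, h3, h4⟩ := ih
    obtain ⟨W', i1, i2, H', h5, h6, h7⟩ := gam_join h1 (m := 4 + 2 ^ k * x0) (by omega)
    have hk : 1 ≤ 2 ^ k := Nat.one_le_two_pow
    set x : ℚ := 2 ^ k * x0 with hx
    have hkq : (1 : ℚ) ≤ 2 ^ k := one_le_pow₀ one_le_two
    have hx1 : (1 : ℚ) ≤ x := by
      rw [hx]
      nlinarith
    have hxx : (x0 : ℚ) ≤ x := by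
      rw [hx]
      nlinarith
    have h8 : ∀ r, (gam (d + 1 + 2 * (t + 1)) H' (r + 1) : ℚ) =
        gam (d + 1 + 2 * t) H (r + 1) + x * gam (d + 1 + 2 * t) H r := by
      intro r
      have h9 := h7 r
      have h10 : d + 1 + 2 * (t + 1) = d + 1 + 2 * t + 2 := by ring
      rw [h10, h9, hx]
      push_cast
      ring
    refine ⟨W', i1, i2, H', ?_, ?_, ?_, ?_⟩
    · rw [show d + 1 + 2 * (t + 1) = d + 1 + 2 * t + 2 by ring]
      exact h5
    · rw [h6]
      calc Fintype.card W + (4 + 2 ^ k * x0) ≤ 2 ^ k * (Fintype.card V + t * (4 + x0)) + 2 ^ k * (4 + x0) := by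
            nlinarith
        _ = _ := by ring
    · rw [show i + (t + 1) = (i + t) + 1 by ring, h8]
      have h9 := h4 (i + t + 1) (by omega)
      have h10 := le_abs_self (gam (d + 1 + 2 * t) H (i + t + 1) : ℚ)
      have h11 : x * (gam (d + 1 + 2 * t) H (i + t) : ℚ) ≤
          x * - (2 ^ k * x ^ t * (1 - 2 ^ t * A / x0)) := mul_le_mul_of_nonneg_left h3 (by linarith)
      have h12 : (2 : ℚ) ^ k * x ^ t * (2 ^ t * A) ≤ 2 ^ k * x ^ t * (x * (2 ^ t * A / x0)) := by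
        apply mul_le_mul_of_nonneg_left _ (by positivity)
        rw [mul_div_assoc', le_div_iff₀ (by linarith)]
        have : 0 ≤ 2 ^ t * A := by positivity
        nlinarith
      calc (gam (d + 1 + 2 * t) H (i + t + 1) : ℚ) + x * gam (d + 1 + 2 * t) H (i + t)
          ≤ 2 ^ k * x ^ t * (x * (2 ^ t * A / x0)) + x * - (2 ^ k * x ^ t * (1 - 2 ^ t * A / x0)) := by
            linarith
        _ = - (2 ^ k * x ^ (t + 1) * (1 - 2 ^ (t + 1) * A / x0)) := by
            rw [pow_succ x, pow_succ (2 : ℚ) t]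
            ring
    · intro i' hi'
      obtain ⟨r, rfl⟩ : ∃ r, i' = r + 1 := ⟨i' - 1, by omega⟩
      rw [h8]
      have h9 := h4 (r + 1) (by omega)
      have h10 := h4 r (by omega)
      refine (abs_add_le _ _).trans ?_
      rw [abs_mul, abs_of_nonneg (by linarith : (0 : ℚ) ≤ x)]
      have h11 : x * |(gam (d + 1 + 2 * t) H r : ℚ)| ≤ x * (2 ^ k * x ^ t * (2 ^ t * A)) :=
        mul_le_mul_of_nonneg_left h10 (by linarith)
      have h12 : 0 ≤ (2 : ℚ) ^ k * x ^ t * (2 ^ t * A) := by positivity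
      have h13 : (2 : ℚ) ^ k * x ^ t * (2 ^ t * A) ≤ x * (2 ^ k * x ^ t * (2 ^ t * A)) := by nlinarith
      calc |(gam (d + 1 + 2 * t) H (r + 1) : ℚ)| + x * |(gam (d + 1 + 2 * t) H r : ℚ)|
          ≤ 2 * (x * (2 ^ k * x ^ t * (2 ^ t * A))) := by linarith
        _ = 2 ^ k * x ^ (t + 1) * (2 ^ (t + 1) * A) := by
            rw [pow_succ x, pow_succ (2 : ℚ) t]
            ring

/-- a counterexample of the smallest dimension produces counterexamples with large defects -/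
theorem gal_amplify {V : Type} [Fintype V] [LinearOrder V] {d i : ℕ} {G : SimpleGraph V}
    (hS : Sph F d G) (hpos : ∀ d' < d, ∀ (W : Type) [Fintype W] [LinearOrder W] (H : SimpleGraph W),
      Sph F d' H → ∀ i, 0 ≤ gam d' H i) (hneg : gam d G i < 0) (j : ℕ) : ∃ c : ℚ, 0 < c ∧ ∀ N : ℕ,
    ∃ (W : Type) (_ : Fintype W) (_ : LinearOrder W) (H : SimpleGraph W), Sph F (d + 2 * j) H ∧
      N ≤ Fintype.card W ∧ (gam (d + 2 * j) H (i + j) : ℚ) ≤ - c * (Fintype.card W : ℚ) ^ (j + 1) := by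
  have hi : i ≤ d / 2 := by
    by_contra hcon
    rw [(gam_spec hS).2 i (by omega)] at hneg
    exact lt_irrefl _ hneg
  obtain ⟨e, rfl⟩ : ∃ e, d = e + 1 := by
    refine ⟨d - 1, ?_⟩
    by_contra hcon
    have h1 : i = 0 := by omega
    rw [h1, gam_zero hS] at hneg
    exact absurd hneg (by norm_num)
  obtain ⟨A, hA0, hA⟩ := many_joins hS (hpos e (by omega)) hneg
  obtain ⟨a, ha⟩ := exists_nat_gt A
  set x0 : ℕ := 2 ^ (j + 1) * a with hx0
  have ha1 : 1 ≤ a := by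
    have : (0 : ℚ) < a := lt_of_le_of_lt hA0 ha
    exact_mod_cast this
  have hx01 : 1 ≤ x0 := by
    rw [hx0]
    have : 1 ≤ 2 ^ (j + 1) := Nat.one_le_two_pow
    nlinarith
  set v1 : ℕ := Fintype.card V + j * (4 + x0) with hv1
  have hv1pos : 1 ≤ v1 := by
    obtain ⟨v, _⟩ := hS.exists_mem (T := ∅) (by simp) (by simp)
    have : 0 < Fintype.card V := Fintype.card_pos_iff.mpr ⟨v⟩
    omega
  obtain ⟨K', hK'0, hK'⟩ := gam_bound (e + 1 + 2 * j)
  have hv1q : (1 : ℚ) ≤ v1 := by exact_mod_cast hv1pos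
  refine ⟨1 / (2 * (v1 : ℚ) ^ (j + 1)), by positivity, fun N => ?_⟩
  obtain ⟨k, hk⟩ := pow_unbounded_of_one_lt (2 * (K' * 2 ^ N) : ℚ) (one_lt_two (α := ℚ))
  obtain ⟨W, i1, i2, H, h1, h2, h3, _⟩ := hA k x0 hx01 j
  have hx0q : (1 : ℚ) ≤ x0 := by exact_mod_cast hx01
  have hkq : (1 : ℚ) ≤ 2 ^ k := one_le_pow₀ one_le_two
  have h4 : (gam (e + 1 + 2 * j) H (i + j) : ℚ) ≤ - ((2 ^ k) ^ (j + 1) / 2) := by
    refine h3.trans ?_
    rw [neg_le_neg_iff]
    have h5 : (1 : ℚ) / 2 ≤ 1 - 2 ^ j * A / x0 := by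
      have h6 : 2 ^ j * A / x0 ≤ 1 / 2 := by
        rw [div_le_iff₀ (by linarith), hx0]
        push_cast
        rw [pow_succ]
        have : (2 : ℚ) ^ j * A ≤ 2 ^ j * a := mul_le_mul_of_nonneg_left ha.le (by positivity)
        linarith
      linarith
    have h6 : ((2 : ℚ) ^ k) ^ (j + 1) ≤ 2 ^ k * (2 ^ k * x0) ^ j := by
      rw [pow_succ, mul_comm]
      apply mul_le_mul_of_nonneg_left _ (by positivity)
      apply pow_le_pow_left₀ (by positivity)
      nlinarith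
    have h7 : (0 : ℚ) ≤ 2 ^ k * (2 ^ k * x0) ^ j := by positivity
    calc ((2 : ℚ) ^ k) ^ (j + 1) / 2 ≤ 2 ^ k * (2 ^ k * x0) ^ j * (1 / 2) := by linarith
      _ ≤ _ := mul_le_mul_of_nonneg_left h5 h7
  refine ⟨W, i1, i2, H, h1, ?_, ?_⟩
  · by_contra hcon
    push Not at hcon
    have h5 := gam_abs_le h1 hK'0 hK' (B := 2 ^ Fintype.card W) (by positivity)
      (coeff_fp_le H Set.univ) (i + j)
    have h6 : |(gam (e + 1 + 2 * j) H (i + j) : ℚ)| ≤ K' * 2 ^ Fintype.card W := by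
      rw [← Int.cast_abs]
      exact_mod_cast h5
    have h7 : (2 : ℚ) ^ Fintype.card W ≤ 2 ^ N := pow_le_pow_right₀ one_le_two hcon.le
    have h8 : (K' : ℚ) * 2 ^ Fintype.card W ≤ K' * 2 ^ N :=
      mul_le_mul_of_nonneg_left h7 (by exact_mod_cast hK'0)
    have h9 : (2 : ℚ) ^ k ≤ (2 ^ k) ^ (j + 1) := by
      conv_lhs => rw [← pow_one ((2 : ℚ) ^ k)]
      exact pow_le_pow_right₀ hkq (by omega)
    have h10 := neg_abs_le (gam (e + 1 + 2 * j) H (i + j) : ℚ)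
    linarith
  · have h5 : (Fintype.card W : ℚ) ≤ 2 ^ k * v1 := by exact_mod_cast h2
    have h6 : (Fintype.card W : ℚ) ^ (j + 1) ≤ (2 ^ k * v1) ^ (j + 1) :=
      pow_le_pow_left₀ (by positivity) h5 _
    have h7 : 1 / (2 * (v1 : ℚ) ^ (j + 1)) * (Fintype.card W : ℚ) ^ (j + 1) ≤ (2 ^ k) ^ (j + 1) / 2 := by
      calc 1 / (2 * (v1 : ℚ) ^ (j + 1)) * (Fintype.card W : ℚ) ^ (j + 1)
          ≤ 1 / (2 * (v1 : ℚ) ^ (j + 1)) * (2 ^ k * v1) ^ (j + 1) :=
            mul_le_mul_of_nonneg_left h6 (by positivity)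
        _ = (2 ^ k) ^ (j + 1) / 2 := by
            rw [mul_pow]
            have : (v1 : ℚ) ^ (j + 1) ≠ 0 := by positivity
            field_simp
    calc (gam (e + 1 + 2 * j) H (i + j) : ℚ) ≤ - ((2 ^ k) ^ (j + 1) / 2) := h4
      _ ≤ - (1 / (2 * (v1 : ℚ) ^ (j + 1)) * (Fintype.card W : ℚ) ^ (j + 1)) := neg_le_neg h7
      _ = _ := by ring

end

end Pool.Agent.R580.CD
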