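import Pool.Agent.R580.CD.DS

/-!
# Gamma-vectors of flag homology spheres, doubles and joins with cycles
-/

set_option autoImplicit false
set_option linter.unusedSectionVars false

namespace Pool.Agent.R580.CD

open Finset Polynomial

/-- `∑ γ_i (x + x^2)^i (1 + 2x)^(d-2i)` -/
noncomputable def Phi (d : ℕ) (γ : ℕ → ℤ) : ℤ[X] :=
  ∑ i ∈ Finset.range (d / 2 + 1), C (γ i) * (X + X ^ 2) ^ i * (1 + 2 * X) ^ (d - 2 * i)

/-- `γ` is the gamma-vector of the polynomial `p` -/
def IsGam (d : ℕ) (p : ℤ[X]) (γ : ℕ → ℤ) : Prop := p = Phi d γ ∧ ∀ i, d / 2 < i → γ i = 0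

theorem Phi_add (d : ℕ) (γ δ : ℕ → ℤ) : Phi d (fun i => γ i + δ i) = Phi d γ + Phi d δ := by
  unfold Phi
  rw [← Finset.sum_add_distrib]
  refine Finset.sum_congr rfl fun i _ => ?_
  rw [map_add]
  ring

theorem Phi_smul (d : ℕ) (a : ℤ) (γ : ℕ → ℤ) : Phi d (fun i => a * γ i) = C a * Phi d γ := by
  unfold Phi
  rw [Finset.mul_sum]
  refine Finset.sum_congr rfl fun i _ => ?_
  rw [map_mul]
  ring

theorem Phi_succ (d : ℕ) (γ : ℕ → ℤ) :
    Phi (d + 2) γ = C (γ 0) * (1 + 2 * X) ^ (d + 2) + (X + X ^ 2) * Phi d (fun i => γ (i + 1)) := by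
  unfold Phi
  rw [show (d + 2) / 2 + 1 = (d / 2 + 1) + 1 by omega, Finset.sum_range_succ', Finset.mul_sum, add_comm]
  congr 1
  · rw [pow_zero, mul_one, Nat.mul_zero, Nat.sub_zero]
  · refine Finset.sum_congr rfl fun i _ => ?_
    rw [show d + 2 - 2 * (i + 1) = d - 2 * i by omega, pow_succ]
    ring

/-- multiplication by `1 + 2x` -/
theorem Phi_one (d : ℕ) (γ : ℕ → ℤ) (h : ∀ i, d / 2 < i → γ i = 0) :
    Phi (d + 1) γ = (1 + 2 * X) * Phi d γ := by
  unfold Phi
  rw [Finset.mul_sum]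
  have h1 : ∑ i ∈ Finset.range (d / 2 + 1), C (γ i) * (X + X ^ 2) ^ i * (1 + 2 * X) ^ (d + 1 - 2 * i) =
      ∑ i ∈ Finset.range ((d + 1) / 2 + 1), C (γ i) * (X + X ^ 2) ^ i * (1 + 2 * X) ^ (d + 1 - 2 * i) := by
    apply Finset.sum_subset
    · intro i hi
      rw [Finset.mem_range] at hi ⊢
      omega
    · intro i _ hi
      rw [Finset.mem_range] at hi
      rw [h i (by omega), map_zero, zero_mul, zero_mul]
  rw [← h1]
  refine Finset.sum_congr rfl fun i hi => ?_
  rw [Finset.mem_range] at hi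
  rw [show d + 1 - 2 * i = (d - 2 * i) + 1 by omega, pow_succ]
  ring

theorem exists_gam : ∀ (d : ℕ) (p : ℤ[X]), p.natDegree ≤ d → p.comp (-1 - X) = (-1) ^ d * p →
    ∃ γ, IsGam d p γ := by
  intro d
  induction d using Nat.strong_induction_on with
  | _ d ih =>
    intro p hp hpal
    set q : ℤ[X] := p - C (p.eval 0) * (1 + 2 * X) ^ d with hq
    have hq0 : q.eval 0 = 0 := by
      rw [hq]
      simp
    have hqpal : q.comp (-1 - X) = (-1) ^ d * q := by
      rw [hq, sub_comp, mul_comp, C_comp, pow_comp, hpal]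
      have h1 : ((1 : ℤ[X]) + 2 * X).comp (-1 - X) = -1 * (1 + 2 * X) := by
        rw [add_comp, mul_comp, X_comp, one_comp]
        have h2 : (2 : ℤ[X]).comp (-1 - X) = 2 := by
          rw [show (2 : ℤ[X]) = C 2 by rfl, C_comp]
        rw [h2]
        ring
      rw [h1, mul_pow]
      ring
    have hq1 : q.eval (-1) = 0 := by
      have h1 := congrArg (Polynomial.eval 0) hqpal
      have h2 : eval 0 ((-1 : ℤ[X]) - X) = -1 := by simp
      rw [eval_comp, eval_mul, hq0, mul_zero, h2] at h1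
      exact h1
    obtain ⟨q1, hq1e⟩ : X ∣ q := by
      have := (Polynomial.dvd_iff_isRoot (p := q) (a := 0)).mpr hq0
      rwa [C_0, sub_zero] at this
    have hq2 : q1.eval (-1) = 0 := by
      rw [hq1e, eval_mul, eval_X] at hq1
      linarith
    obtain ⟨r, hr⟩ : (X + 1) ∣ q1 := by
      have := (Polynomial.dvd_iff_isRoot (p := q1) (a := -1)).mpr hq2
      rwa [C_neg, C_1, sub_neg_eq_add] at this
    have hqr : q = (X + X ^ 2) * r := by
      rw [hq1e, hr]
      ring
    have hX : (X + X ^ 2 : ℤ[X]) ≠ 0 := by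
      intro h
      have := congrArg (Polynomial.eval 1) h
      simp at this
    have hrpal : r.comp (-1 - X) = (-1) ^ d * r := by
      apply mul_left_cancel₀ hX
      have h1 : ((X : ℤ[X]) + X ^ 2).comp (-1 - X) = X + X ^ 2 := by
        rw [add_comp, pow_comp, X_comp]
        ring
      calc (X + X ^ 2) * r.comp (-1 - X) = ((X + X ^ 2) * r).comp (-1 - X) := by rw [mul_comp, h1]
        _ = (-1) ^ d * ((X + X ^ 2) * r) := by rw [← hqr, hqpal]
        _ = _ := by ring
    have hdeg2 : (X + X ^ 2 : ℤ[X]).natDegree = 2 := by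
      rw [add_comm]
      compute_degree!
    have hdeg1 : (1 + 2 * X : ℤ[X]).natDegree ≤ 1 := by
      compute_degree
    have hqdeg : q.natDegree ≤ d := by
      rw [hq]
      refine (natDegree_sub_le _ _).trans (max_le hp ?_)
      refine natDegree_mul_le.trans ?_
      rw [natDegree_C, zero_add]
      refine natDegree_pow_le.trans ?_
      calc d * (1 + 2 * X : ℤ[X]).natDegree ≤ d * 1 := Nat.mul_le_mul_left _ hdeg1
        _ = d := mul_one d
    have hpe : p = C (p.eval 0) * (1 + 2 * X) ^ d + (X + X ^ 2) * r := by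
      rw [← hqr, hq]
      ring
    by_cases hr0 : r = 0
    · refine ⟨fun i => if i = 0 then p.eval 0 else 0, ?_, fun i hi => if_neg (by omega)⟩
      unfold Phi
      rw [Finset.sum_eq_single 0]
      · beta_reduce
        rw [if_pos rfl, pow_zero, mul_one, Nat.mul_zero, Nat.sub_zero]
        rw [hr0, mul_zero, add_zero] at hpe
        exact hpe
      · intro i _ hi
        beta_reduce
        rw [if_neg hi, map_zero, zero_mul, zero_mul]
      · intro h
        exact absurd (Finset.mem_range.mpr (by omega)) h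
    · have hrd : r.natDegree + 2 ≤ d := by
        rw [hqr, natDegree_mul hX hr0, hdeg2] at hqdeg
        omega
      obtain ⟨e, rfl⟩ : ∃ e, d = e + 2 := ⟨d - 2, by omega⟩
      obtain ⟨γ, h1, h2⟩ := ih e (by omega) r (by omega) (by
        rw [hrpal, pow_add]
        ring)
      refine ⟨fun i => if i = 0 then p.eval 0 else γ (i - 1), ?_, fun i hi => ?_⟩
      · rw [Phi_succ, if_pos rfl]
        have h3 : (fun i => if i + 1 = 0 then p.eval 0 else γ (i + 1 - 1)) = γ := by
          funext i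
          rw [if_neg (by omega), Nat.add_sub_cancel]
        rw [h3, ← h1]
        exact hpe
      · beta_reduce
        rw [if_neg (by omega)]
        exact h2 _ (by omega)

/-- the coefficients of the basic polynomials -/
noncomputable def cc (d l i : ℕ) : ℤ := ((X + X ^ 2 : ℤ[X]) ^ l * (1 + 2 * X) ^ (d - 2 * l)).coeff i

theorem cc_eq (d l i : ℕ) : cc d l i = if l ≤ i then (((1 + X : ℤ[X])) ^ l * (1 + 2 * X) ^ (d - 2 * l)).coeff (i - l) else 0 := by
  unfold cc
  have h1 : (X + X ^ 2 : ℤ[X]) ^ l * (1 + 2 * X) ^ (d - 2 * l) =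
      X ^ l * ((1 + X) ^ l * (1 + 2 * X) ^ (d - 2 * l)) := by
    rw [show (X + X ^ 2 : ℤ[X]) = X * (1 + X) by ring, mul_pow]
    ring
  rw [h1, coeff_X_pow_mul']

theorem cc_self (d i : ℕ) : cc d i i = 1 := by
  rw [cc_eq, if_pos le_rfl, Nat.sub_self, coeff_zero_eq_eval_zero]
  simp

theorem coeff_Phi (d : ℕ) (γ : ℕ → ℤ) {i : ℕ} (hi : i ≤ d / 2) :
    (Phi d γ).coeff i = γ i + ∑ l ∈ Finset.range i, γ l * cc d l i := by
  unfold Phi
  rw [finset_sum_coeff]
  have h1 : ∀ l ∈ Finset.range (d / 2 + 1),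
      (C (γ l) * (X + X ^ 2) ^ l * (1 + 2 * X) ^ (d - 2 * l)).coeff i = γ l * cc d l i := by
    intro l _
    rw [mul_assoc, coeff_C_mul]
    rfl
  rw [Finset.sum_congr rfl h1]
  have h2 : Finset.range (i + 1) ⊆ Finset.range (d / 2 + 1) := by
    intro l hl
    rw [Finset.mem_range] at hl ⊢
    omega
  rw [← Finset.sum_subset h2, Finset.sum_range_succ, cc_self, mul_one, add_comm]
  intro l _ hl
  rw [Finset.mem_range] at hl
  rw [cc_eq, if_neg (by omega), mul_zero]

theorem gam_bound_aux (d : ℕ) : ∀ i, i ≤ d / 2 → ∃ K : ℤ, 0 ≤ K ∧ ∀ (γ : ℕ → ℤ) (B : ℤ), 0 ≤ B →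
    (∀ l, |(Phi d γ).coeff l| ≤ B) → |γ i| ≤ K * B := by
  intro i
  induction i using Nat.strong_induction_on with
  | _ i ih =>
    intro hi
    have ih' : ∀ l, ∃ K : ℤ, 0 ≤ K ∧ (l < i → ∀ (γ : ℕ → ℤ) (B : ℤ), 0 ≤ B →
        (∀ l, |(Phi d γ).coeff l| ≤ B) → |γ l| ≤ K * B) := by
      intro l
      by_cases hl : l < i
      · obtain ⟨K, h1, h2⟩ := ih l hl (by omega)
        exact ⟨K, h1, fun _ => h2⟩
      · exact ⟨0, le_rfl, fun h => absurd h hl⟩
    choose K hK0 hK using ih'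
    refine ⟨1 + ∑ l ∈ Finset.range i, K l * |cc d l i|, ?_, fun γ B hB h => ?_⟩
    · have : 0 ≤ ∑ l ∈ Finset.range i, K l * |cc d l i| :=
        Finset.sum_nonneg fun l _ => mul_nonneg (hK0 l) (abs_nonneg _)
      linarith
    · have h1 := coeff_Phi d γ hi
      have h2 : γ i = (Phi d γ).coeff i - ∑ l ∈ Finset.range i, γ l * cc d l i := by linarith
      rw [h2, add_mul, one_mul, Finset.sum_mul]
      refine (abs_sub _ _).trans (add_le_add (h i) ?_)
      refine (Finset.abs_sum_le_sum_abs _ _).trans (Finset.sum_le_sum fun l hl => ?_)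
      rw [abs_mul, mul_right_comm]
      exact mul_le_mul_of_nonneg_right (hK l (Finset.mem_range.mp hl) γ B hB h) (abs_nonneg _)

theorem gam_bound (d : ℕ) : ∃ K : ℤ, 0 ≤ K ∧ ∀ (γ : ℕ → ℤ) (B : ℤ), 0 ≤ B →
    (∀ l, |(Phi d γ).coeff l| ≤ B) → ∀ i, i ≤ d / 2 → |γ i| ≤ K * B := by
  have h := gam_bound_aux d
  have h' : ∀ i, ∃ K : ℤ, 0 ≤ K ∧ (i ≤ d / 2 → ∀ (γ : ℕ → ℤ) (B : ℤ), 0 ≤ B →
      (∀ l, |(Phi d γ).coeff l| ≤ B) → |γ i| ≤ K * B) := by
    intro i
    by_cases hi : i ≤ d / 2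
    · obtain ⟨K, h1, h2⟩ := h i hi
      exact ⟨K, h1, fun _ => h2⟩
    · exact ⟨0, le_rfl, fun h => absurd h hi⟩
  choose K hK0 hK using h'
  refine ⟨∑ i ∈ Finset.range (d / 2 + 1), K i, Finset.sum_nonneg fun i _ => hK0 i,
    fun γ B hB h i hi => (hK i hi γ B hB h).trans ?_⟩
  refine mul_le_mul_of_nonneg_right ?_ hB
  exact Finset.single_le_sum (f := K) (fun j _ => hK0 j) (Finset.mem_range.mpr (by omega))

theorem gam_unique {d : ℕ} {p : ℤ[X]} {γ δ : ℕ → ℤ} (h1 : IsGam d p γ) (h2 : IsGam d p δ) : γ = δ := by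
  obtain ⟨K, _, hK⟩ := gam_bound d
  have h3 : Phi d (fun i => γ i + (-1) * δ i) = 0 := by
    rw [Phi_add, Phi_smul, ← h1.1, ← h2.1, C_neg, C_1]
    ring
  funext i
  by_cases hi : i ≤ d / 2
  · have h4 := hK _ 0 le_rfl (fun l => by rw [h3]; simp) i hi
    rw [mul_zero] at h4
    have h5 : γ i + -1 * δ i = 0 := abs_eq_zero.mp (le_antisymm h4 (abs_nonneg _))
    linarith
  · rw [h1.2 i (by omega), h2.2 i (by omega)]

section

variable {V : Type} [Fintype V] [LinearOrder V] {F : Type} [Field F]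

open Classical in
/-- the gamma-vector of the clique complex of `G`, for the parameter `d` (the dimension plus one): the
integers with `∑ f_(i-1) x^i = ∑ γ_i (x + x^2)^i (1 + 2x)^(d-2i)` (zero if there are none) -/
noncomputable def gam (d : ℕ) (G : SimpleGraph V) : ℕ → ℤ :=
  if h : ∃ γ, IsGam d (fp G Set.univ) γ then h.choose else 0

theorem fp_natDegree {d : ℕ} {G : SimpleGraph V} (hS : Sph F d G) : (fp G Set.univ).natDegree ≤ d := by
  classical
  unfold fp
  refine natDegree_sum_le_of_forall_le _ _ fun T _ => ?_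
  split_ifs with h
  · rw [natDegree_X_pow]
    exact hS.card h.1
  · simp

theorem gam_spec {d : ℕ} {G : SimpleGraph V} (hS : Sph F d G) : IsGam d (fp G Set.univ) (gam d G) := by
  have h := exists_gam d _ (fp_natDegree hS) (dehn_sommerville d V G hS)
  unfold gam
  rw [dif_pos h]
  exact h.choose_spec

theorem gam_eq {d : ℕ} {G : SimpleGraph V} (hS : Sph F d G) {γ : ℕ → ℤ}
    (h : IsGam d (fp G Set.univ) γ) : gam d G = γ := gam_unique (gam_spec hS) h

theorem coeff_fp_nonneg (G : SimpleGraph V) (A : Set V) (l : ℕ) : 0 ≤ (fp G A).coeff l := by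
  classical
  unfold fp
  rw [finset_sum_coeff]
  refine Finset.sum_nonneg fun T _ => ?_
  split_ifs
  · rw [coeff_X_pow]
    split_ifs <;> norm_num
  · simp

theorem coeff_fp_le (G : SimpleGraph V) (A : Set V) (l : ℕ) : (fp G A).coeff l ≤ 2 ^ Fintype.card V := by
  classical
  unfold fp
  rw [finset_sum_coeff]
  have h : ∀ T ∈ (Finset.univ : Finset (Finset V)),
      (if G.IsClique (T : Set V) ∧ (T : Set V) ⊆ A then (X : ℤ[X]) ^ T.card else 0).coeff l ≤ 1 := by
    intro T _
    split_ifs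
    · rw [coeff_X_pow]
      split_ifs <;> norm_num
    · simp
  refine (Finset.sum_le_sum h).trans ?_
  rw [Finset.sum_const, Finset.card_univ, Fintype.card_finset, nsmul_eq_mul, mul_one]
  push_cast
  exact le_refl _

theorem gam_double {d : ℕ} {G : SimpleGraph V} (hS : Sph F (d + 1) G)
    (hpos : ∀ (W : Type) [Fintype W] [LinearOrder W] (H : SimpleGraph W), Sph F d H → ∀ i, 0 ≤ gam d H i) :
    ∃ (W : Type) (_ : Fintype W) (_ : LinearOrder W) (H : SimpleGraph W), Sph F (d + 1) H ∧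
      Fintype.card W ≤ 2 * Fintype.card V ∧
      (∀ l, (fp H Set.univ).coeff l ≤ 2 * (fp G Set.univ).coeff l) ∧
      ∀ i, gam (d + 1) H i ≤ 2 * gam (d + 1) G i := by
  classical
  obtain ⟨v, _⟩ := hS.exists_mem (T := ∅) (by simp) (by simp)
  have hL := (hS.link v).induce
  have hLp := hpos _ _ hL
  have hLs := gam_spec hL
  set δ := gam d (G.induce (G.neighborSet v)) with hδ
  rw [fp_univ_induce] at hLs
  have hH : Sph F (d + 1) ((dbl G v).induce (hA v ∪ hB G v)) := (dbl_sphOn hS v).induce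
  have hfp : fp ((dbl G v).induce (hA v ∪ hB G v)) Set.univ =
      2 * fp G Set.univ - (1 + 2 * X) * fp G (G.neighborSet v) := by
    rw [fp_univ_induce, fp_dbl]
  refine ⟨↥(hA v ∪ hB G v), inferInstance, inferInstance, (dbl G v).induce (hA v ∪ hB G v), hH, ?_, ?_, ?_⟩
  · have h1 : (hA v ∪ hB G v) = ((Finset.univ.map (ic0 : V ↪ V ×ₗ Bool) ∪ Finset.univ.map (ic1 G v) :
        Finset (V ×ₗ Bool)) : Set (V ×ₗ Bool)) ∩ (hA v ∪ hB G v) := by
      ext p
      simp only [hA, hB, Set.mem_union, Set.mem_image, Finset.coe_union, Finset.coe_map, Finset.coe_univ,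
        Set.mem_inter_iff, Set.image_univ, Set.mem_range]
      constructor
      · rintro (⟨x, hx, rfl⟩ | ⟨x, hx, rfl⟩)
        · exact ⟨Or.inl ⟨x, rfl⟩, Or.inl ⟨x, hx, rfl⟩⟩
        · exact ⟨Or.inr ⟨x, rfl⟩, Or.inr ⟨x, hx, rfl⟩⟩
      · exact fun h => h.2
    have h2 : Fintype.card ↥(hA v ∪ hB G v) ≤ (Finset.univ.map (ic0 : V ↪ V ×ₗ Bool) ∪
        Finset.univ.map (ic1 G v)).card := by
      rw [← Set.toFinset_card]
      refine Finset.card_le_card ?_
      intro p hp
      rw [Set.mem_toFinset, h1] at hp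
      exact hp.1
    refine h2.trans ((Finset.card_union_le _ _).trans ?_)
    rw [card_map, card_map, Finset.card_univ]
    omega
  · intro l
    rw [hfp]
    have h1 : ((1 + 2 * X) * fp G (G.neighborSet v)).coeff l =
        (fp G (G.neighborSet v)).coeff l + 2 * (X * fp G (G.neighborSet v)).coeff l := by
      rw [add_mul, one_mul, coeff_add, mul_assoc]
      congr 1
      rw [show (2 : ℤ[X]) = C 2 by rfl, coeff_C_mul]
    have h2 : 0 ≤ (X * fp G (G.neighborSet v)).coeff l := by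
      rcases l with _ | l
      · rw [mul_coeff_zero, coeff_X_zero, zero_mul]
      · rw [coeff_X_mul]
        exact coeff_fp_nonneg _ _ _
    have h3 := coeff_fp_nonneg G (G.neighborSet v) l
    rw [coeff_sub, h1, show (2 : ℤ[X]) = C 2 by rfl, coeff_C_mul]
    linarith
  · intro i
    have hγ : IsGam (d + 1) (fp ((dbl G v).induce (hA v ∪ hB G v)) Set.univ)
        (fun i => 2 * gam (d + 1) G i + (-1) * δ i) := by
      refine ⟨?_, fun i hi => ?_⟩
      · rw [Phi_add, Phi_smul, Phi_smul, Phi_one d δ hLs.2, ← hLs.1, ← (gam_spec hS).1, hfp]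
        rw [show (C 2 : ℤ[X]) = 2 by rfl, C_neg, C_1]
        ring
      · beta_reduce
        rw [(gam_spec hS).2 i hi, hLs.2 i (by omega)]
        ring
    rw [gam_eq hH hγ]
    have := hLp i
    show 2 * gam (d + 1) G i + (-1) * δ i ≤ _
    linarith

theorem gam_join {d : ℕ} {G : SimpleGraph V} (hS : Sph F d G) {m : ℕ} (hm : 4 ≤ m) :
    ∃ (W : Type) (_ : Fintype W) (_ : LinearOrder W) (H : SimpleGraph W), Sph F (d + 2) H ∧
      Fintype.card W = Fintype.card V + m ∧
      ∀ i, gam (d + 2) H (i + 1) = gam d G (i + 1) + (m - 4) * gam d G i := by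
  have hH : Sph F (d + 2) (jn G m) := jn_sph hm hS
  refine ⟨V ⊕ₗ Fin m, inferInstance, inferInstance, jn G m, hH, ?_, ?_⟩
  · show Fintype.card (V ⊕ Fin m) = _
    rw [Fintype.card_sum, Fintype.card_fin]
  · have hs := gam_spec hS
    set γ := gam d G with hγ
    have h1 : IsGam (d + 2) (fp (jn G m) Set.univ)
        (fun i => γ i + ((m : ℤ) - 4) * (if i = 0 then 0 else γ (i - 1))) := by
      refine ⟨?_, fun i hi => ?_⟩
      · rw [fp_jn hm, hs.1, Phi_add, Phi_smul, Phi_succ d (fun i => if i = 0 then 0 else γ (i - 1)),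
          if_pos rfl]
        have h3 : (fun i => if i + 1 = 0 then (0 : ℤ) else γ (i + 1 - 1)) = γ := by
          funext i
          rw [if_neg (by omega), Nat.add_sub_cancel]
        rw [h3, Phi_one (d + 1) γ (fun i hi => hs.2 i (by omega)), Phi_one d γ hs.2, map_zero, C_sub]
        have h4 : (C (m : ℤ) : ℤ[X]) = (m : ℤ[X]) := by simp
        rw [h4, show (C 4 : ℤ[X]) = 4 by rfl]
        ring
      · beta_reduce
        rw [hs.2 i (by omega), if_neg (by omega), hs.2 (i - 1) (by omega)]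
        ring
    intro i
    rw [gam_eq hH h1]
    show γ (i + 1) + ((m : ℤ) - 4) * (if i + 1 = 0 then 0 else γ (i + 1 - 1)) = _
    rw [if_neg (by omega), Nat.add_sub_cancel]

end

end Pool.Agent.R580.CD
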