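import Pool.Agent.W347.SG.VERT

/-!
# Homology of clique complexes with coefficients in a field: cones and unions

`CC F G A i` is the space of the simplicial chains with coefficients in `F`, supported on the cliques of `G`
with `i` elements which are contained in `A`; `bd F` is the boundary operator.
-/

set_option autoImplicit false
set_option linter.unusedSectionVars false

namespace Pool.Agent.R580.CD

open Finset Module Pool.Agent.W907.SG
open Pool.Agent.W347.SGV (qq qq_apply qq_of_mem qq_of_not qq_bd lift)

section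

variable {V : Type} [Fintype V] [LinearOrder V] {F : Type} [Field F]

/-- the chains with coefficients in `F`, supported on the cliques of `G` with `i` elements in `A` -/
def CC (F : Type) [Field F] (G : SimpleGraph V) (A : Set V) (i : ℕ) : Submodule F (Finset V → F) where
  carrier := {c | ∀ T : Finset V, ¬ (G.IsClique (T : Set V) ∧ (T : Set V) ⊆ A ∧ T.card = i) → c T = 0}
  add_mem' := by
    intro c d h1 h2 T hT
    rw [Pi.add_apply, h1 T hT, h2 T hT, add_zero]
  zero_mem' := fun T _ => rfl
  smul_mem' := by
    intro a c h1 T hT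
    rw [Pi.smul_apply, h1 T hT, smul_zero]

/-- the cycles -/
def Zy (F : Type) [Field F] (G : SimpleGraph V) (A : Set V) (i : ℕ) : Submodule F (Finset V → F) :=
  CC F G A i ⊓ LinearMap.ker (bd F)

/-- the boundaries -/
def By (F : Type) [Field F] (G : SimpleGraph V) (A : Set V) (i : ℕ) : Submodule F (Finset V → F) :=
  (CC F G A (i + 1)).map (bd F)

/-- the reduced Betti numbers with coefficients in `F` of the complex of the cliques of `G` in `A`; the
index `i` is the number of vertices (the dimension plus one) -/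
noncomputable def betti (F : Type) [Field F] (G : SimpleGraph V) (A : Set V) (i : ℕ) : ℕ :=
  finrank F (Zy F G A i) - finrank F (By F G A i)

omit [Fintype V] [LinearOrder V] in
theorem mem_CC {G : SimpleGraph V} {A : Set V} {i : ℕ} {c : Finset V → F} : c ∈ CC F G A i ↔
    ∀ T : Finset V, ¬ (G.IsClique (T : Set V) ∧ (T : Set V) ⊆ A ∧ T.card = i) → c T = 0 := Iff.rfl

omit [Fintype V] [LinearOrder V] in
theorem CC_mono {G : SimpleGraph V} {A B : Set V} (h : A ⊆ B) (i : ℕ) : CC F G A i ≤ CC F G B i := by
  intro c hc T hT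
  exact hc T fun h1 => hT ⟨h1.1, h1.2.1.trans h, h1.2.2⟩

theorem bd_mem {G : SimpleGraph V} {A : Set V} {i : ℕ} {c : Finset V → F} (h : c ∈ CC F G A (i + 1)) :
    bd F c ∈ CC F G A i := by
  intro T hT
  rw [bd_apply]
  refine Finset.sum_eq_zero fun v hv => ?_
  rw [h (insert v T), smul_zero]
  rintro ⟨h3, h4, h5⟩
  apply hT
  refine ⟨h3.subset (by simp), fun x hx => h4 (by simp at hx ⊢; exact Or.inr hx), ?_⟩
  rw [Finset.card_insert_of_notMem (by simpa using hv)] at h5
  omega

theorem By_le_Zy (G : SimpleGraph V) (A : Set V) (i : ℕ) : By F G A i ≤ Zy F G A i := by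
  rintro _ ⟨c, hc, rfl⟩
  exact ⟨bd_mem hc, bd_bd c⟩

theorem mem_Zy {G : SimpleGraph V} {A : Set V} {i : ℕ} {c : Finset V → F} :
    c ∈ Zy F G A i ↔ c ∈ CC F G A i ∧ bd F c = 0 := Iff.rfl

theorem betti_eq_zero {G : SimpleGraph V} {A : Set V} {i : ℕ} :
    betti F G A i = 0 ↔ Zy F G A i ≤ By F G A i := by
  constructor
  · intro h
    unfold betti at h
    have h2 := Submodule.eq_of_le_of_finrank_le (By_le_Zy (F := F) G A i) (by omega)
    exact h2.ge
  · intro h
    unfold betti
    have := Submodule.finrank_mono h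
    omega

/-- a criterion for the equality of the dimensions of two homology groups -/
theorem sub_eq {M M' : Type} [AddCommGroup M] [Module F M] [AddCommGroup M'] [Module F M']
    [FiniteDimensional F M] [FiniteDimensional F M'] (Z B : Submodule F M) (Z' B' : Submodule F M')
    (hB : B ≤ Z) (hB' : B' ≤ Z') (φ : M →ₗ[F] M')
    (h1 : ∀ z ∈ Z, φ z ∈ Z') (h2 : ∀ z ∈ Z, φ z ∈ B' ↔ z ∈ B)
    (h3 : ∀ w ∈ Z', ∃ z ∈ Z, φ z - w ∈ B') :
    finrank F Z - finrank F B = finrank F Z' - finrank F B' := by
  set ψ : Z →ₗ[F] (M' ⧸ B') := B'.mkQ.comp (φ.comp Z.subtype) with hψ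
  set χ : Z' →ₗ[F] (M' ⧸ B') := B'.mkQ.comp Z'.subtype with hχ
  have hr : LinearMap.range ψ = LinearMap.range χ := by
    apply le_antisymm
    · rintro _ ⟨z, rfl⟩
      exact ⟨⟨φ z, h1 z z.2⟩, rfl⟩
    · rintro _ ⟨w, rfl⟩
      obtain ⟨z, hz, hzw⟩ := h3 w w.2
      refine ⟨⟨z, hz⟩, ?_⟩
      rw [hψ, hχ]
      simp only [LinearMap.comp_apply, Submodule.subtype_apply, Submodule.mkQ_apply]
      rw [Submodule.Quotient.eq]
      exact hzw
  have hk : LinearMap.ker ψ = B.comap Z.subtype := by
    ext z
    rw [LinearMap.mem_ker, hψ]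
    simp only [LinearMap.comp_apply, Submodule.subtype_apply, Submodule.mkQ_apply,
      Submodule.Quotient.mk_eq_zero, Submodule.mem_comap]
    exact h2 z z.2
  have hk' : LinearMap.ker χ = B'.comap Z'.subtype := by
    ext z
    rw [LinearMap.mem_ker, hχ]
    simp only [LinearMap.comp_apply, Submodule.subtype_apply, Submodule.mkQ_apply,
      Submodule.Quotient.mk_eq_zero, Submodule.mem_comap]
  have e1 := LinearMap.finrank_range_add_finrank_ker ψ
  have e2 := LinearMap.finrank_range_add_finrank_ker χ
  rw [hk] at e1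
  rw [hk'] at e2
  rw [hr] at e1
  have e3 : finrank F (B.comap Z.subtype) = finrank F B :=
    (Submodule.comapSubtypeEquivOfLe hB).finrank_eq
  have e4 : finrank F (B'.comap Z'.subtype) = finrank F B' :=
    (Submodule.comapSubtypeEquivOfLe hB').finrank_eq
  rw [e3] at e1
  rw [e4] at e2
  omega

/-- cones are acyclic -/
theorem cone {G : SimpleGraph V} {A : Set V} {v : V} (hv : v ∈ A) (h : ∀ u ∈ A, u ≠ v → G.Adj v u) (i : ℕ) :
    Zy F G A i ≤ By F G A i := by
  rintro z ⟨hz1, hz2⟩
  have hz2 : bd F z = 0 := hz2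
  refine ⟨lift v z, ?_, ?_⟩
  · intro T hT
    unfold lift
    split_ifs with hvT
    · rw [hz1 (T.erase v), smul_zero]
      rintro ⟨h3, h4, h5⟩
      apply hT
      have hT' : (T : Set V) = insert v ((T.erase v : Finset V) : Set V) := by
        rw [← Finset.coe_insert, Finset.insert_erase hvT]
      refine ⟨?_, ?_, ?_⟩
      · rw [hT', SimpleGraph.isClique_insert]
        exact ⟨h3, fun b hb hne => h b (h4 hb) hne.symm⟩
      · rw [hT']
        exact Set.insert_subset hv h4
      · rw [Finset.card_erase_of_mem hvT] at h5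
        have := Finset.card_pos.2 ⟨v, hvT⟩
        omega
    · rfl
  · funext T
    rw [bd_apply]
    by_cases hvT : v ∈ T
    · set R := T.erase v with hR
      have hvR : v ∉ R := by simp [hR]
      have hTR : T = insert v R := (insert_erase hvT).symm
      have h2 := congrFun hz2 R
      rw [bd_apply, Pi.zero_apply] at h2
      have h3 : Rᶜ = insert v Tᶜ := by
        ext u
        simp only [hR, mem_compl, mem_erase, mem_insert, not_and]
        tauto
      rw [h3, sum_insert (by simp [hvT])] at h2
      have h4 : ∀ u ∈ Tᶜ, sg u T • lift v z (insert u T) = - (sg v R • (sg u R • z (insert u R))) := by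
        intro u hu
        rw [mem_compl] at hu
        have huv : u ≠ v := by
          rintro rfl
          exact hu hvT
        have huR : u ∉ R := fun hh => hu (mem_of_mem_erase hh)
        unfold lift
        rw [if_pos (mem_insert_of_mem hvT), erase_insert_of_ne huv, ← hR, smul_smul, smul_smul,
          ← neg_smul]
        congr 1
        have h5 := sg_swap u v R huv huR hvR
        rw [← hTR] at h5
        have h6 := sg_mul_self v R
        calc sg u T * sg v (insert u R) = (sg u T * sg v R) * (sg v R * sg v (insert u R)) := by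
              rw [show (sg u T * sg v R) * (sg v R * sg v (insert u R)) =
                sg u T * sg v (insert u R) * (sg v R * sg v R) by ring, h6, mul_one]
          _ = - (sg v R * sg u R) * (sg v (insert u R) * sg v (insert u R)) := by
              rw [h5]; ring
          _ = - (sg v R * sg u R) := by rw [sg_mul_self, mul_one]
      rw [sum_congr rfl h4, sum_neg_distrib, ← smul_sum]
      have h7 : ∑ u ∈ Tᶜ, sg u R • z (insert u R) = - (sg v R • z (insert v R)) :=
        eq_neg_of_add_eq_zero_right h2
      rw [h7, smul_neg, neg_neg, smul_smul, sg_mul_self, one_smul, ← hTR]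
    · rw [sum_eq_single v]
      · unfold lift
        rw [if_pos (mem_insert_self v T), erase_insert hvT, smul_smul, sg_mul_self, one_smul]
      · intro u _ huv
        unfold lift
        rw [if_neg, smul_zero]
        rw [mem_insert]
        rintro (h1 | h1)
        · exact huv h1.symm
        · exact hvT h1
      · intro h1
        exact absurd (mem_compl.mpr hvT) h1

open Classical in
/-- restriction of a chain to the cliques in `A` -/
noncomputable def res (F : Type) [Field F] {V : Type} (A : Set V) : (Finset V → F) →ₗ[F] (Finset V → F) where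
  toFun c T := if (T : Set V) ⊆ A then c T else 0
  map_add' c d := by
    funext T
    by_cases h : (T : Set V) ⊆ A <;> simp [h]
  map_smul' a c := by
    funext T
    by_cases h : (T : Set V) ⊆ A <;> simp [h]

omit [Fintype V] [LinearOrder V] in
theorem res_of {A : Set V} {c : Finset V → F} {T : Finset V} (h : (T : Set V) ⊆ A) : res F A c T = c T :=
  if_pos h

omit [Fintype V] [LinearOrder V] in
theorem res_not {A : Set V} {c : Finset V → F} {T : Finset V} (h : ¬ (T : Set V) ⊆ A) : res F A c T = 0 :=
  if_neg h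

omit [Fintype V] [LinearOrder V] in
theorem res_mem {G : SimpleGraph V} {A B : Set V} {i : ℕ} {c : Finset V → F} (h : c ∈ CC F G B i) :
    res F A c ∈ CC F G (A ∩ B) i := by
  intro T hT
  by_cases h1 : (T : Set V) ⊆ A
  · rw [res_of h1]
    exact h T fun h2 => hT ⟨h2.1, Set.subset_inter h1 h2.2.1, h2.2.2⟩
  · exact res_not h1

omit [Fintype V] [LinearOrder V] in
theorem sub_res_mem {G : SimpleGraph V} {A B : Set V}
    (hs : ∀ a ∈ A, a ∉ B → ∀ b ∈ B, b ∉ A → ¬ G.Adj a b) {i : ℕ} {c : Finset V → F}
    (h : c ∈ CC F G (A ∪ B) i) : c - res F A c ∈ CC F G B i := by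
  intro T hT
  rw [Pi.sub_apply]
  by_cases h1 : (T : Set V) ⊆ A
  · rw [res_of h1]
    exact sub_self _
  · rw [res_not h1, sub_zero]
    by_contra h0
    have h2 : G.IsClique (T : Set V) ∧ (T : Set V) ⊆ A ∪ B ∧ T.card = i := by
      by_contra h3
      exact h0 (h T h3)
    apply hT
    refine ⟨h2.1, ?_, h2.2.2⟩
    rw [Set.not_subset] at h1
    obtain ⟨b, hbT, hbA⟩ := h1
    have hbB : b ∈ B := by
      rcases h2.2.1 hbT with h4 | h4
      · exact absurd h4 hbA
      · exact h4
    intro a haT
    by_contra haB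
    have haA : a ∈ A := by
      rcases h2.2.1 haT with h4 | h4
      · exact h4
      · exact absurd h4 haB
    exact hs a haA haB b hbB hbA (h2.1 haT hbT (by rintro rfl; exact haB hbB))

theorem bd_res_mem {G : SimpleGraph V} {A B : Set V}
    (hs : ∀ a ∈ A, a ∉ B → ∀ b ∈ B, b ∉ A → ¬ G.Adj a b) {i : ℕ} {z : Finset V → F}
    (h : z ∈ CC F G (A ∪ B) (i + 1)) (hz : bd F z = 0) : bd F (res F A z) ∈ CC F G (A ∩ B) i := by
  have h1 : bd F (res F A z) ∈ CC F G A i := by
    have := res_mem (A := A) h
    refine bd_mem (CC_mono ?_ _ this)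
    exact Set.inter_subset_left
  have h2 : bd F (res F A z) ∈ CC F G B i := by
    have h3 := bd_mem (sub_res_mem hs h)
    rw [map_sub, hz, zero_sub] at h3
    exact neg_mem_iff.mp h3
  intro T hT
  by_cases hA : (T : Set V) ⊆ A
  · refine h2 T fun h4 => hT ⟨h4.1, Set.subset_inter hA h4.2.1, h4.2.2⟩
  · exact h1 T fun h4 => hA h4.2.1

/-- the union of two acyclic complexes: the homology is that of the intersection, shifted -/
theorem union {G : SimpleGraph V} {A B : Set V}
    (hs : ∀ a ∈ A, a ∉ B → ∀ b ∈ B, b ∉ A → ¬ G.Adj a b)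
    (hA : ∀ i, Zy F G A i ≤ By F G A i) (hB : ∀ i, Zy F G B i ≤ By F G B i) :
    betti F G (A ∪ B) 0 = 0 ∧ ∀ i, betti F G (A ∪ B) (i + 1) = betti F G (A ∩ B) i := by
  constructor
  · rw [betti_eq_zero]
    have h0 : Zy F G (A ∪ B) 0 ≤ Zy F G A 0 := by
      rintro z ⟨hz1, hz2⟩
      refine ⟨fun T hT => ?_, hz2⟩
      by_cases hT0 : T = ∅
      · subst hT0
        exfalso
        apply hT
        simp
      · refine hz1 T fun h1 => hT0 (Finset.card_eq_zero.mp h1.2.2)
    refine h0.trans ((hA 0).trans ?_)
    exact Submodule.map_mono (CC_mono Set.subset_union_left _)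
  · intro i
    refine sub_eq _ _ _ _ (By_le_Zy _ _ _) (By_le_Zy _ _ _) ((bd F).comp (res F A)) ?_ ?_ ?_
    · rintro z ⟨hz1, hz2⟩
      exact ⟨bd_res_mem hs hz1 hz2, bd_bd _⟩
    · rintro z ⟨hz1, hz2⟩
      have hz2 : bd F z = 0 := hz2
      constructor
      · rintro ⟨u, hu, hu2⟩
        have hu : u ∈ CC F G (A ∩ B) (i + 1) := hu
        have hu2 : bd F u = bd F (res F A z) := hu2
        have h1 : res F A z - u ∈ Zy F G A (i + 1) := by
          refine ⟨Submodule.sub_mem _ (CC_mono Set.inter_subset_left _ (res_mem hz1))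
            (CC_mono Set.inter_subset_left _ hu), ?_⟩
          show bd F _ = 0
          rw [map_sub, hu2, sub_self]
        have h2 : z - res F A z + u ∈ Zy F G B (i + 1) := by
          refine ⟨Submodule.add_mem _ (sub_res_mem hs hz1) (CC_mono Set.inter_subset_right _ hu), ?_⟩
          show bd F _ = 0
          rw [map_add, map_sub, hu2, hz2, zero_sub, neg_add_cancel]
        obtain ⟨a, ha, ha2⟩ := hA _ h1
        obtain ⟨b, hb, hb2⟩ := hB _ h2
        refine ⟨a + b, Submodule.add_mem _ (CC_mono Set.subset_union_left _ ha)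
          (CC_mono Set.subset_union_right _ hb), ?_⟩
        rw [map_add, ha2, hb2]
        abel
      · rintro ⟨y, hy, rfl⟩
        have hy : y ∈ CC F G (A ∪ B) (i + 1 + 1) := hy
        have h1 : bd F (y - res F A y) ∈ CC F G B (i + 1) := bd_mem (sub_res_mem hs hy)
        have h2 : res F A (bd F (y - res F A y)) ∈ CC F G (A ∩ B) (i + 1) := res_mem h1
        have h3 : bd F (res F A y) ∈ CC F G A (i + 1) :=
          bd_mem (CC_mono Set.inter_subset_left _ (res_mem hy))
        have h4 : res F A (bd F (res F A y)) = bd F (res F A y) := by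
          funext T
          by_cases h5 : (T : Set V) ⊆ A
          · exact res_of h5
          · rw [res_not h5]
            exact (h3 T fun h6 => h5 h6.2.1).symm
        refine ⟨res F A (bd F (y - res F A y)), h2, ?_⟩
        rw [map_sub (bd F), map_sub (res F A), map_sub (bd F), h4, bd_bd (F := F) (res F A y), sub_zero]
        rfl
    · rintro w ⟨hw1, hw2⟩
      obtain ⟨a, ha, ha2⟩ := hA i ⟨CC_mono Set.inter_subset_left _ hw1, hw2⟩
      obtain ⟨b, hb, hb2⟩ := hB i ⟨CC_mono Set.inter_subset_right _ hw1, hw2⟩
      have ha : a ∈ CC F G A (i + 1) := ha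
      have hb : b ∈ CC F G B (i + 1) := hb
      refine ⟨a - b, ⟨Submodule.sub_mem _ (CC_mono Set.subset_union_left _ ha)
          (CC_mono Set.subset_union_right _ hb), ?_⟩, ?_⟩
      · show bd F _ = 0
        rw [map_sub, ha2, hb2, sub_self]
      · refine ⟨- res F A b, neg_mem (res_mem hb), ?_⟩
        have h4 : res F A a = a := by
          funext T
          by_cases h5 : (T : Set V) ⊆ A
          · exact res_of h5
          · rw [res_not h5]
            exact (ha T fun h6 => h5 h6.2.1).symm
        rw [LinearMap.comp_apply, map_sub (res F A), map_sub (bd F), h4, ha2, map_neg]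
        abel

end

end Pool.Agent.R580.CD
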