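import Pool.Agent.R580.CD.Hom

/-!
# Homology spheres: the complement of a vertex is acyclic
-/

set_option autoImplicit false
set_option linter.unusedSectionVars false

namespace Pool.Agent.R580.CD

open Finset Module Pool.Agent.W907.SG
open Pool.Agent.W347.SGV (qq qq_apply qq_of_mem qq_of_not qq_bd lift)

section

variable {V : Type} [Fintype V] [LinearOrder V] {F : Type} [Field F] {G : SimpleGraph V}

/-- the common neighbours of the elements of `T` -/
def lnk (G : SimpleGraph V) (T : Finset V) : Set V := {x | ∀ u ∈ T, G.Adj x u}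

/-- The clique complex of `G` is a homology manifold over `F` with the homology of the sphere of dimension
`d - 1`. -/
def Sph (F : Type) [Field F] (d : ℕ) (G : SimpleGraph V) : Prop :=
  ∀ T : Finset V, G.IsClique (T : Set V) → ∀ i : ℕ,
    betti F G (lnk G T) i = if i + T.card = d then 1 else 0

theorem notMem_of_lnk {T : Finset V} {x : V} (h : x ∈ lnk G T) : x ∉ T := fun h1 =>
  G.loopless.irrefl x (h x h1)

theorem clique_insert {T : Finset V} (hT : G.IsClique (T : Set V)) {x : V} (h : x ∈ lnk G T) :
    G.IsClique ((insert x T : Finset V) : Set V) := by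
  rw [Finset.coe_insert, SimpleGraph.isClique_insert]
  exact ⟨hT, fun b hb _ => h b hb⟩

theorem lnk_insert (T : Finset V) (x : V) : lnk G (insert x T) = lnk G T ∩ G.neighborSet x := by
  ext y
  constructor
  · intro h
    exact ⟨fun u hu => h u (mem_insert_of_mem hu), (h x (mem_insert_self _ _)).symm⟩
  · rintro ⟨h1, h2⟩ u hu
    rcases mem_insert.mp hu with rfl | h
    · exact SimpleGraph.Adj.symm h2
    · exact h1 u h

theorem clique_union {T R : Finset V} (hT : G.IsClique (T : Set V)) (hR : G.IsClique (R : Set V))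
    (h : (R : Set V) ⊆ lnk G T) : G.IsClique ((T ∪ R : Finset V) : Set V) ∧ (T ∪ R).card = T.card + R.card := by
  constructor
  · intro a ha b hb hab
    simp only [coe_union, Set.mem_union, mem_coe] at ha hb
    rcases ha with ha | ha <;> rcases hb with hb | hb
    · exact hT ha hb hab
    · exact (h hb a ha).symm
    · exact h ha b hb
    · exact hR ha hb hab
  · apply card_union_of_disjoint
    rw [Finset.disjoint_left]
    intro a ha hb
    exact notMem_of_lnk (h hb) ha

/-- the cliques have at most `d` elements -/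
theorem Sph.card_le {d : ℕ} (hS : Sph F d G) : ∀ (k : ℕ) (T : Finset V), G.IsClique (T : Set V) →
    k + T.card = Fintype.card V + 1 → T.card ≤ d := by
  intro k
  induction k with
  | zero =>
    intro T _ h2
    have := Finset.card_le_univ T
    omega
  | succ k ih =>
    intro T hT h2
    by_contra hcon
    have h3 := hS T hT 0
    rw [if_neg (by omega), betti_eq_zero] at h3
    have h4 : (Pi.single ∅ 1 : Finset V → F) ∈ Zy F G (lnk G T) 0 := by
      refine ⟨fun R hR => ?_, ?_⟩
      · rw [Pi.single_apply, if_neg]
        rintro rfl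
        apply hR
        simp
      · show bd F _ = 0
        funext R
        rw [bd_apply]
        refine Finset.sum_eq_zero fun v _ => ?_
        rw [Pi.single_apply, if_neg (Finset.insert_ne_empty v R), smul_zero]
    obtain ⟨c, hc, hc2⟩ := h3 h4
    have hc : c ∈ CC F G (lnk G T) 1 := hc
    have h5 := congrFun hc2 ∅
    rw [bd_apply, Pi.single_eq_same] at h5
    obtain ⟨x, _, hx⟩ : ∃ x ∈ (∅ : Finset V)ᶜ, sg x (∅ : Finset V) • c (insert x ∅) ≠ 0 := by
      by_contra hno
      push Not at hno
      rw [Finset.sum_eq_zero hno] at h5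
      exact zero_ne_one h5
    have hx1 : x ∈ lnk G T := by
      by_contra hx1
      apply hx
      rw [hc (insert x ∅), smul_zero]
      rintro ⟨_, h6, _⟩
      exact hx1 (h6 (by simp))
    have h6 := ih (insert x T) (clique_insert hT hx1) (by
      rw [card_insert_of_notMem (notMem_of_lnk hx1)]
      omega)
    rw [card_insert_of_notMem (notMem_of_lnk hx1)] at h6
    omega

theorem Sph.card {d : ℕ} (hS : Sph F d G) {T : Finset V} (hT : G.IsClique (T : Set V)) : T.card ≤ d := by
  have := Finset.card_le_univ T
  exact hS.card_le (Fintype.card V + 1 - T.card) T hT (by omega)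

theorem qq_mem' {T : Finset V} {w : V} {k : ℕ} {z : Finset V → F} (h : z ∈ CC F G (lnk G T) (k + 1)) :
    qq F w z ∈ CC F G (lnk G (insert w T)) k := by
  intro R hR
  by_cases hw : w ∈ R
  · exact qq_of_mem _ hw
  · rw [qq_of_not _ hw, h (insert w R), smul_zero]
    rintro ⟨h3, h4, h5⟩
    apply hR
    rw [Finset.coe_insert] at h3 h4
    refine ⟨h3.subset (Set.subset_insert _ _), fun x hx => ?_, ?_⟩
    · rw [lnk_insert]
      refine ⟨h4 (Set.mem_insert_of_mem _ hx), ?_⟩
      have hxw : w ≠ x := by
        rintro rfl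
        exact hw (by simpa using hx)
      exact h3 (Set.mem_insert _ _) (Set.mem_insert_of_mem _ hx) hxw
    · rw [card_insert_of_notMem hw] at h5
      omega

theorem qq_zy {T : Finset V} {w : V} {k : ℕ} {z : Finset V → F} (h : z ∈ Zy F G (lnk G T) (k + 1)) :
    qq F w z ∈ Zy F G (lnk G (insert w T)) k := by
  refine ⟨qq_mem' h.1, ?_⟩
  show bd F _ = 0
  have h2 : bd F z = 0 := h.2
  rw [qq_bd, h2, map_zero, neg_zero]

theorem sg_empty (u : V) : sg u (∅ : Finset V) = 1 := by
  unfold sg
  simp

theorem sg_pair {u v : V} (h : u ≠ v) : sg u ({v} : Finset V) = - sg v ({u} : Finset V) := by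
  have h1 := sg_swap u v (∅ : Finset V) h (by simp) (by simp)
  rw [sg_empty, sg_empty, mul_one, mul_one] at h1
  simpa using h1

/-- the difference of two vertices -/
theorem diff_mem {A : Set V} {x y : V} (hx : x ∈ A) (hy : y ∈ A) :
    (Pi.single {x} 1 - Pi.single {y} 1 : Finset V → F) ∈ Zy F G A 1 := by
  refine ⟨fun R hR => ?_, ?_⟩
  · rw [Pi.sub_apply, Pi.single_apply, Pi.single_apply, if_neg, if_neg, sub_zero]
    · rintro rfl
      apply hR
      simp [hy]
    · rintro rfl
      apply hR
      simp [hx]
  · show bd F _ = 0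
    funext R
    rw [bd_apply, Pi.zero_apply]
    by_cases hR : R = ∅
    · subst hR
      simp only [sg_empty, one_smul, Pi.sub_apply, Finset.sum_sub_distrib]
      have h1 : ∀ a : V, ∑ v ∈ (∅ : Finset V)ᶜ, (Pi.single ({a} : Finset V) (1 : F) : Finset V → F) (insert v ∅) = 1 := by
        intro a
        rw [Finset.sum_eq_single a]
        · simp
        · intro b _ hb
          rw [Pi.single_apply, if_neg]
          simpa using hb
        · intro h
          exact absurd (by simp) h
      rw [h1, h1, sub_self]
    · refine Finset.sum_eq_zero fun v hv => ?_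
      rw [mem_compl] at hv
      have h2 : ∀ a : V, insert v R ≠ {a} := by
        intro a h
        have h3 := congrArg Finset.card h
        rw [card_insert_of_notMem hv, card_singleton] at h3
        exact hR (Finset.card_eq_zero.mp (by omega))
      rw [Pi.sub_apply, Pi.single_apply, Pi.single_apply, if_neg (h2 _), if_neg (h2 _), sub_zero, smul_zero]

/-- the boundary of a chain of edges, summed over a set of vertices closed under the edges -/
theorem sum_bd {e : Finset V → F} (U : Finset V) (h : ∀ x ∈ U, ∀ y, y ∉ U → e {x, y} = 0) :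
    ∑ x ∈ U, bd F e {x} = 0 := by
  have h1 : ∀ x ∈ U, bd F e {x} = ∑ y ∈ U.erase x, sg y ({x} : Finset V) • e {y, x} := by
    intro x hx
    rw [bd_apply]
    symm
    apply Finset.sum_subset
    · intro y hy
      rw [mem_erase] at hy
      simpa using hy.1
    · intro y hy hy2
      have hyx : y ≠ x := by simpa using hy
      have hyU : y ∉ U := fun h3 => hy2 (mem_erase.mpr ⟨hyx, h3⟩)
      have h4 := h x hx y hyU
      rw [Finset.pair_comm] at h4
      rw [h4, smul_zero]
  rw [Finset.sum_congr rfl h1, Finset.sum_sigma']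
  refine Finset.sum_involution (fun (x : Σ _ : V, V) _ => ⟨x.2, x.1⟩) ?_ ?_ ?_ ?_
  · rintro ⟨x, y⟩ h2
    simp only [Finset.mem_sigma, Finset.mem_erase] at h2
    simp only
    rw [Finset.pair_comm x y, sg_pair h2.2.1, neg_smul]
    exact neg_add_cancel _
  · rintro ⟨x, y⟩ h2 _ h3
    simp only [Finset.mem_sigma, Finset.mem_erase] at h2
    simp only [Sigma.mk.injEq, heq_eq_eq] at h3
    exact h2.2.1 h3.1
  · rintro ⟨x, y⟩ h2
    simp only [Finset.mem_sigma, Finset.mem_erase] at h2 ⊢
    exact ⟨h2.2.2, fun e => h2.2.1 e.symm, h2.1⟩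
  · rintro ⟨x, y⟩ _
    rfl

/-- a top-dimensional cycle which vanishes near a vertex is zero -/
theorem Sph.inj {d : ℕ} (hS : Sph F d G) : ∀ (k : ℕ) (T : Finset V), G.IsClique (T : Set V) →
    k + T.card = d → ∀ z ∈ Zy F G (lnk G T) k, ∀ v ∈ lnk G T, (∀ R : Finset V, v ∈ R → z R = 0) → z = 0 := by
  intro k
  induction k with
  | zero =>
    intro T hT h1 z _ v hv _
    exfalso
    have := hS.card (clique_insert hT hv)
    rw [card_insert_of_notMem (notMem_of_lnk hv)] at this
    omega
  | succ k ih =>
    intro T hT h1 z hz v hv hvz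
    -- closure under adjacency
    have hcl : ∀ u ∈ lnk G T, (∀ R : Finset V, u ∈ R → z R = 0) → ∀ w ∈ lnk G T, G.Adj u w →
        ∀ R : Finset V, w ∈ R → z R = 0 := by
      intro u hu huz w hw huw R hwR
      have h2 := ih (insert w T) (clique_insert hT hw) (by
        rw [card_insert_of_notMem (notMem_of_lnk hw)]
        omega) (qq F w z) (qq_zy hz) u (by rw [lnk_insert]; exact ⟨hu, huw.symm⟩) (by
        intro R' huR'
        rw [qq_apply]
        split_ifs with h3
        · rfl
        · rw [huz (insert w R') (mem_insert_of_mem huR'), smul_zero])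
      have h3 := congrFun h2 (R.erase w)
      rw [qq_of_not _ (by simp), insert_erase hwR, Pi.zero_apply] at h3
      rcases sg_eq_or w (R.erase w) with h4 | h4
      · rw [h4, one_smul] at h3
        exact h3
      · rw [h4, neg_smul, one_smul, neg_eq_zero] at h3
        exact h3
    -- all vertices
    have hall : ∀ w ∈ lnk G T, ∀ R : Finset V, w ∈ R → z R = 0 := by
      by_contra hcon
      push Not at hcon
      obtain ⟨w, hw, R₀, hwR₀, hR₀⟩ := hcon
      rcases Nat.eq_zero_or_pos k with hk | hk
      · -- two points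
        subst hk
        have h2 := hS T hT 1
        rw [if_pos (by omega)] at h2
        have h3 : By F G (lnk G T) 1 = ⊥ := by
          rw [eq_bot_iff]
          rintro _ ⟨c, hc, rfl⟩
          have hc : c ∈ CC F G (lnk G T) 2 := hc
          have hc0 : c = 0 := by
            funext R
            refine hc R ?_
            rintro ⟨h4, h5, h6⟩
            obtain ⟨h7, h8⟩ := clique_union hT h4 h5
            have := hS.card h7
            omega
          rw [hc0, map_zero]
          exact Submodule.zero_mem _
        unfold betti at h2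
        rw [h3, finrank_bot, Nat.sub_zero] at h2
        have hz0 : (⟨z, hz⟩ : Zy F G (lnk G T) 1) ≠ 0 := by
          intro h4
          have h5 : z = 0 := congrArg Subtype.val h4
          rw [h5] at hR₀
          exact hR₀ rfl
        obtain ⟨a, ha⟩ := (finrank_eq_one_iff_of_nonzero' _ hz0).mp h2 ⟨_, diff_mem (F := F) (G := G) hv hw⟩
        have h4 := congrFun (congrArg Subtype.val ha) {v}
        have h5 : z {v} = 0 := hvz {v} (mem_singleton_self v)
        have h6 : v ≠ w := by
          rintro rfl
          exact hR₀ (hvz R₀ hwR₀)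
        simp only [Submodule.coe_smul, Pi.smul_apply, h5, smul_zero, Pi.sub_apply, Pi.single_eq_same] at h4
        rw [Pi.single_apply, if_neg (by simpa using h6), sub_zero] at h4
        exact zero_ne_one h4
      · -- connectedness
        classical
        have h2 := hS T hT 1
        rw [if_neg (by omega), betti_eq_zero] at h2
        obtain ⟨e, he, he2⟩ := h2 (diff_mem (F := F) (G := G) hv hw)
        have he : e ∈ CC F G (lnk G T) 2 := he
        set U : Finset V := Finset.univ.filter (fun u => u ∈ lnk G T ∧ ∀ R : Finset V, u ∈ R → z R = 0) with hU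
        have hvU : v ∈ U := by
          rw [hU, mem_filter]
          exact ⟨mem_univ _, hv, hvz⟩
        have hwU : w ∉ U := by
          rw [hU, mem_filter]
          rintro ⟨_, _, h3⟩
          exact hR₀ (h3 R₀ hwR₀)
        have h3 : ∑ x ∈ U, bd F e {x} = 0 := by
          apply sum_bd
          intro x hx y hy
          by_contra h4
          have h5 : G.IsClique (({x, y} : Finset V) : Set V) ∧ (({x, y} : Finset V) : Set V) ⊆ lnk G T ∧
              ({x, y} : Finset V).card = 2 := by
            by_contra h6
            exact h4 (he _ h6)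
          have hxy : x ≠ y := by
            rintro rfl
            exact hy hx
          have h6 : G.Adj x y := h5.1 (by simp) (by simp) hxy
          rw [hU, mem_filter] at hx hy
          apply hy
          have hyl : y ∈ lnk G T := h5.2.1 (by simp)
          exact ⟨mem_univ _, hyl, hcl x hx.2.1 hx.2.2 y hyl h6⟩
        rw [he2, Finset.sum_eq_single v] at h3
        · have h6 : v ≠ w := by
            rintro rfl
            exact hwU hvU
          rw [Pi.sub_apply, Pi.single_eq_same, Pi.single_apply, if_neg (by simpa using h6), sub_zero] at h3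
          exact one_ne_zero h3
        · intro x hx hxv
          have hxw : x ≠ w := by
            rintro rfl
            exact hwU hx
          rw [Pi.sub_apply, Pi.single_apply, Pi.single_apply, if_neg (by simpa using hxv),
            if_neg (by simpa using hxw), sub_zero]
        · intro h4
          exact absurd hvU h4
    funext R
    rw [Pi.zero_apply]
    by_contra hR
    have h2 : G.IsClique (R : Set V) ∧ (R : Set V) ⊆ lnk G T ∧ R.card = k + 1 := by
      by_contra h3
      exact hR (hz.1 R h3)
    obtain ⟨x, hx⟩ : R.Nonempty := by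
      rw [← Finset.card_pos]
      omega
    exact hR (hall x (h2.2.1 hx) R hx)

/-- no boundaries in the top dimension -/
theorem Sph.top {d : ℕ} (hS : Sph F d G) {T : Finset V} (hT : G.IsClique (T : Set V)) {k : ℕ}
    (hk : k + T.card = d) : finrank F (Zy F G (lnk G T) k) = 1 := by
  have h2 := hS T hT k
  rw [if_pos hk] at h2
  have h3 : By F G (lnk G T) k = ⊥ := by
    rw [eq_bot_iff]
    rintro _ ⟨c, hc, rfl⟩
    have hc : c ∈ CC F G (lnk G T) (k + 1) := hc
    have hc0 : c = 0 := by
      funext R
      refine hc R ?_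
      rintro ⟨h4, h5, h6⟩
      obtain ⟨h7, h8⟩ := clique_union hT h4 h5
      have := hS.card h7
      omega
    rw [hc0, map_zero]
    exact Submodule.zero_mem _
  unfold betti at h2
  rw [h3, finrank_bot, Nat.sub_zero] at h2
  exact h2

theorem lift_mem' {T : Finset V} {v : V} (hv : v ∈ lnk G T) {k : ℕ} {r : Finset V → F}
    (h : r ∈ CC F G (lnk G (insert v T)) k) : lift v r ∈ CC F G (lnk G T) (k + 1) := by
  intro R hR
  unfold lift
  split_ifs with hvR
  · rw [h (R.erase v), smul_zero]
    rintro ⟨h3, h4, h5⟩
    apply hR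
    rw [lnk_insert] at h4
    have hR' : (R : Set V) = insert v ((R.erase v : Finset V) : Set V) := by
      rw [← Finset.coe_insert, Finset.insert_erase hvR]
    refine ⟨?_, ?_, ?_⟩
    · rw [hR', SimpleGraph.isClique_insert]
      exact ⟨h3, fun b hb _ => (h4 hb).2⟩
    · rw [hR']
      exact Set.insert_subset hv fun x hx => (h4 hx).1
    · rw [Finset.card_erase_of_mem hvR] at h5
      have := Finset.card_pos.2 ⟨v, hvR⟩
      omega
  · rfl

theorem qq_lift' {T : Finset V} {v : V} {k : ℕ} {r : Finset V → F}
    (h : r ∈ CC F G (lnk G (insert v T)) k) : qq F v (lift v r) = r := by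
  funext R
  by_cases hv : v ∈ R
  · rw [qq_of_mem _ hv, h R]
    rintro ⟨_, h4, _⟩
    exact notMem_of_lnk (h4 (by simpa using hv)) (mem_insert_self _ _)
  · rw [qq_of_not _ hv]
    unfold lift
    rw [if_pos (Finset.mem_insert_self _ _), Finset.erase_insert hv, smul_smul, sg_mul_self, one_smul]

theorem mem_of_qq' {A : Set V} {v : V} {k : ℕ} {y : Finset V → F} (h : y ∈ CC F G A k)
    (hq : qq F v y = 0) : y ∈ CC F G (A \ {v}) k := by
  intro R hR
  by_cases hv : v ∈ R
  · have h3 := congrFun hq (R.erase v)
    rw [qq_of_not _ (by simp), insert_erase hv, Pi.zero_apply] at h3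
    rcases sg_eq_or v (R.erase v) with h4 | h4
    · rw [h4, one_smul] at h3
      exact h3
    · rw [h4, neg_smul, one_smul, neg_eq_zero] at h3
      exact h3
  · refine h R fun h1 => hR ⟨h1.1, fun x hx => ⟨h1.2.1 hx, ?_⟩, h1.2.2⟩
    rintro rfl
    exact hv (by simpa using hx)

theorem qq_of_del {A : Set V} {v : V} {k : ℕ} {y : Finset V → F} (h : y ∈ CC F G (A \ {v}) k) :
    qq F v y = 0 := by
  funext R
  by_cases hv : v ∈ R
  · exact qq_of_mem _ hv
  · rw [qq_of_not _ hv, h (insert v R), smul_zero, Pi.zero_apply]
    rintro ⟨_, h4, _⟩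
    exact (h4 (by simp)).2 rfl

/-- in a homology sphere the complement of a vertex is acyclic -/
theorem Sph.del {d : ℕ} (hS : Sph F d G) {T : Finset V} (hT : G.IsClique (T : Set V)) {v : V}
    (hv : v ∈ lnk G T) (i : ℕ) : Zy F G (lnk G T \ {v}) i ≤ By F G (lnk G T \ {v}) i := by
  rintro z ⟨hz1, hz2⟩
  have hz2 : bd F z = 0 := hz2
  have hzK : z ∈ Zy F G (lnk G T) i := ⟨CC_mono Set.sdiff_subset _ hz1, hz2⟩
  have hvT : v ∉ T := notMem_of_lnk hv
  have hT' := clique_insert hT hv
  have hcard : (insert v T).card = T.card + 1 := card_insert_of_notMem hvT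
  have hle := hS.card hT'
  have hqz := qq_of_del hz1
  by_cases h1 : i + T.card = d
  · have h2 : z = 0 := by
      refine hS.inj i T hT h1 z hzK v hv fun R hR => ?_
      refine hz1 R ?_
      rintro ⟨_, h4, _⟩
      exact (h4 hR).2 rfl
    rw [h2]
    exact Submodule.zero_mem _
  · have h2 := hS T hT i
    rw [if_neg h1, betti_eq_zero] at h2
    obtain ⟨y, hy, hy2⟩ := h2 hzK
    have hy : y ∈ CC F G (lnk G T) (i + 1) := hy
    -- a correction
    suffices h3 : ∃ w ∈ CC F G (lnk G T) (i + 1), bd F w = 0 ∧ qq F v w = qq F v y by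
      obtain ⟨w, hw1, hw2, hw3⟩ := h3
      refine ⟨y - w, mem_of_qq' (Submodule.sub_mem _ hy hw1) (by rw [map_sub, hw3, sub_self]), ?_⟩
      rw [map_sub, hw2, sub_zero, hy2]
    have hq : qq F v y ∈ Zy F G (lnk G (insert v T)) i := by
      refine ⟨qq_mem' hy, ?_⟩
      show bd F _ = 0
      rw [qq_bd, hy2, hqz, neg_zero]
    by_cases h4 : i + 1 + T.card = d
    · have h5 := hS.top hT h4
      have h6 := hS.top hT' (k := i) (by omega)
      obtain ⟨w0, hw0⟩ : ∃ w0 : Zy F G (lnk G T) (i + 1), w0 ≠ 0 := by
        have : Nontrivial (Zy F G (lnk G T) (i + 1)) :=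
          Module.nontrivial_of_finrank_pos (R := F) (by rw [h5]; exact one_pos)
        exact exists_ne 0
      have h7 : (⟨qq F v w0.1, qq_zy w0.2⟩ : Zy F G (lnk G (insert v T)) i) ≠ 0 := by
        intro h8
        have h9 : qq F v w0.1 = 0 := congrArg Subtype.val h8
        apply hw0
        apply Subtype.ext
        refine hS.inj (i + 1) T hT h4 w0.1 w0.2 v hv fun R hR => ?_
        exact mem_of_qq' w0.2.1 h9 R fun h10 => (h10.2.1 hR).2 rfl
      obtain ⟨a, ha⟩ := (finrank_eq_one_iff_of_nonzero' _ h7).mp h6 ⟨_, hq⟩
      have ha := congrArg Subtype.val ha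
      refine ⟨a • w0.1, Submodule.smul_mem _ _ w0.2.1, ?_, ?_⟩
      · have h8 : bd F w0.1 = 0 := w0.2.2
        rw [map_smul, h8, smul_zero]
      · rw [map_smul]
        exact ha
    · have h5 := hS _ hT' i
      rw [if_neg (by omega), betti_eq_zero] at h5
      obtain ⟨r, hr, hr2⟩ := h5 hq
      have hr : r ∈ CC F G (lnk G (insert v T)) (i + 1) := hr
      refine ⟨- bd F (lift v r), neg_mem (bd_mem (lift_mem' hv hr)), ?_, ?_⟩
      · rw [map_neg, bd_bd, neg_zero]
      · have h6 := qq_bd (F := F) v (lift v r)
        rw [qq_lift' hr, hr2] at h6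
        rw [map_neg, ← h6]

end

end Pool.Agent.R580.CD
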