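import Pool.Agent.R580.CD.Sph

/-!
# Transport along order embeddings, and face polynomials
-/

set_option autoImplicit false
set_option linter.unusedSectionVars false

namespace Pool.Agent.R580.CD

open Finset Module Pool.Agent.W907.SG

section

variable {V W : Type} [Fintype V] [LinearOrder V] [Fintype W] [LinearOrder W] {F : Type} [Field F]

theorem sg_map (f : V ↪ W) (hf : StrictMono f) (v : V) (T : Finset V) : sg (f v) (T.map f) = sg v T := by
  unfold sg
  congr 1
  rw [Finset.filter_map, Finset.card_map]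
  congr 1
  ext u
  simp only [mem_filter, Function.comp_apply, hf.lt_iff_lt]

/-- the pullback of chains -/
def pb (F : Type) [Field F] (f : V ↪ W) : (Finset W → F) →ₗ[F] (Finset V → F) :=
  LinearMap.funLeft F F (fun T : Finset V => T.map f)

theorem pb_apply (f : V ↪ W) (c : Finset W → F) (T : Finset V) : pb F f c T = c (T.map f) := rfl

/-- the chains supported on the subsets of `A` -/
def OnA (A : Set W) (c : Finset W → F) : Prop := ∀ T : Finset W, ¬ (T : Set W) ⊆ A → c T = 0

theorem onA_CC {H : SimpleGraph W} {A : Set W} {i : ℕ} {c : Finset W → F} (h : c ∈ CC F H A i) :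
    OnA A c := fun T hT => h T fun h1 => hT h1.2.1

theorem onA_bd {A : Set W} {c : Finset W → F} (h : OnA A c) : OnA A (bd F c) := by
  intro T hT
  rw [bd_apply]
  refine Finset.sum_eq_zero fun v _ => ?_
  rw [h (insert v T), smul_zero]
  intro h1
  apply hT
  intro x hx
  exact h1 (by simp at hx ⊢; exact Or.inr hx)

theorem pb_bd (f : V ↪ W) (hf : StrictMono f) {c : Finset W → F} (h : OnA (Set.range f) c) :
    bd F (pb F f c) = pb F f (bd F c) := by
  funext T
  rw [bd_apply, pb_apply, bd_apply]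
  have h1 : (Tᶜ.map f) ⊆ (T.map f)ᶜ := by
    intro w hw
    rw [mem_map] at hw
    obtain ⟨v, hv, rfl⟩ := hw
    rw [mem_compl] at hv ⊢
    intro h2
    exact hv ((Finset.mem_map' f).mp h2)
  rw [← Finset.sum_subset h1]
  · rw [Finset.sum_map]
    refine Finset.sum_congr rfl fun v _ => ?_
    rw [sg_map f hf, pb_apply, Finset.map_insert]
  · intro w hw hw2
    rw [h (insert w (T.map f)), smul_zero]
    intro h3
    obtain ⟨v, rfl⟩ := h3 (show w ∈ _ by simp)
    apply hw2
    rw [Finset.mem_map']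
    rw [mem_compl] at hw ⊢
    intro h4
    exact hw ((Finset.mem_map' f).mpr h4)

theorem exists_map (f : V ↪ W) {A : Set V} {T : Finset W} (h : (T : Set W) ⊆ f '' A) :
    ∃ R : Finset V, R.map f = T ∧ (R : Set V) ⊆ A := by
  classical
  refine ⟨T.preimage f f.injective.injOn, ?_, ?_⟩
  · ext w
    rw [mem_map]
    constructor
    · rintro ⟨v, hv, rfl⟩
      exact Finset.mem_preimage.mp hv
    · intro hw
      obtain ⟨v, _, rfl⟩ := h hw
      exact ⟨v, Finset.mem_preimage.mpr hw, rfl⟩
  · intro v hv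
    have h1 : f v ∈ T := by simpa using hv
    obtain ⟨u, hu, huv⟩ := h h1
    rw [← f.injective huv]
    exact hu

theorem pb_inj (f : V ↪ W) {A : Set V} {c : Finset W → F} (h : OnA (f '' A) c) (h0 : pb F f c = 0) :
    c = 0 := by
  funext T
  by_cases hT : (T : Set W) ⊆ f '' A
  · obtain ⟨R, rfl, _⟩ := exists_map f hT
    exact congrFun h0 R
  · exact h T hT

open Classical in
/-- the pushforward of chains -/
noncomputable def pf (f : V ↪ W) (d : Finset V → F) : Finset W → F := fun T =>
  if (T : Set W) ⊆ Set.range f then d (T.preimage f f.injective.injOn) else 0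

theorem pf_map (f : V ↪ W) (d : Finset V → F) (R : Finset V) : pf f d (R.map f) = d R := by
  classical
  unfold pf
  rw [if_pos]
  · congr 1
    ext v
    rw [Finset.mem_preimage, Finset.mem_map']
  · intro w hw
    rw [mem_coe, mem_map] at hw
    obtain ⟨v, _, rfl⟩ := hw
    exact ⟨v, rfl⟩

theorem pb_pf (f : V ↪ W) (d : Finset V → F) : pb F f (pf f d) = d := by
  funext R
  rw [pb_apply, pf_map]

variable {G : SimpleGraph V} {H : SimpleGraph W}

theorem clique_map (f : V ↪ W) {A : Set V} (hfa : ∀ x ∈ A, ∀ y ∈ A, G.Adj x y ↔ H.Adj (f x) (f y))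
    {R : Finset V} (hR : (R : Set V) ⊆ A) :
    H.IsClique ((R.map f : Finset W) : Set W) ↔ G.IsClique (R : Set V) := by
  rw [Finset.coe_map]
  constructor
  · intro h x hx y hy hxy
    exact (hfa x (hR hx) y (hR hy)).mpr (h ⟨x, hx, rfl⟩ ⟨y, hy, rfl⟩ fun h1 => hxy (f.injective h1))
  · rintro h _ ⟨x, hx, rfl⟩ _ ⟨y, hy, rfl⟩ hxy
    exact (hfa x (hR hx) y (hR hy)).mp (h hx hy fun h1 => hxy (by rw [h1]))

theorem pb_mem (f : V ↪ W) {A : Set V} (hfa : ∀ x ∈ A, ∀ y ∈ A, G.Adj x y ↔ H.Adj (f x) (f y)) {i : ℕ}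
    {c : Finset W → F} (h : c ∈ CC F H (f '' A) i) : pb F f c ∈ CC F G A i := by
  intro R hR
  rw [pb_apply]
  refine h _ ?_
  rintro ⟨h1, h2, h3⟩
  have h4 : (R : Set V) ⊆ A := by
    intro x hx
    obtain ⟨y, hy, hxy⟩ := h2 (show f x ∈ _ by simpa using hx)
    rw [← f.injective hxy]
    exact hy
  rw [card_map] at h3
  exact hR ⟨(clique_map f hfa h4).mp h1, h4, h3⟩

theorem pf_mem (f : V ↪ W) {A : Set V} (hfa : ∀ x ∈ A, ∀ y ∈ A, G.Adj x y ↔ H.Adj (f x) (f y)) {i : ℕ}
    {d : Finset V → F} (h : d ∈ CC F G A i) : pf f d ∈ CC F H (f '' A) i := by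
  intro T hT
  by_cases h1 : (T : Set W) ⊆ Set.range f
  · obtain ⟨R, rfl, _⟩ := exists_map f (A := Set.univ) (by rwa [Set.image_univ])
    rw [pf_map]
    refine h R ?_
    rintro ⟨h2, h3, h4⟩
    apply hT
    refine ⟨(clique_map f hfa h3).mpr h2, ?_, ?_⟩
    · rw [Finset.coe_map]
      exact Set.image_mono h3
    · rw [card_map]
      exact h4
  · classical
    unfold pf
    rw [if_neg h1]

/-- Betti numbers are preserved by order embeddings. -/
theorem betti_map (f : V ↪ W) (hf : StrictMono f) {A : Set V}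
    (hfa : ∀ x ∈ A, ∀ y ∈ A, G.Adj x y ↔ H.Adj (f x) (f y)) (i : ℕ) :
    betti F H (f '' A) i = betti F G A i := by
  have hr : ∀ {c : Finset W → F}, OnA (f '' A) c → OnA (Set.range f) c := by
    intro c hc T hT
    exact hc T fun h1 => hT (h1.trans (Set.image_subset_range _ _))
  refine sub_eq _ _ _ _ (By_le_Zy _ _ _) (By_le_Zy _ _ _) (pb F f) ?_ ?_ ?_
  · rintro z ⟨hz1, hz2⟩
    have hz2 : bd F z = 0 := hz2
    refine ⟨pb_mem f hfa hz1, ?_⟩
    show bd F _ = 0
    rw [pb_bd f hf (hr (onA_CC hz1)), hz2, map_zero]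
  · rintro z ⟨hz1, hz2⟩
    constructor
    · rintro ⟨y, hy, hy2⟩
      have hy' := pf_mem (H := H) f hfa hy
      refine ⟨pf f y, hy', ?_⟩
      have h1 : OnA (f '' A) (bd F (pf f y) - z) := by
        intro T hT
        rw [Pi.sub_apply, onA_bd (onA_CC hy') T hT, onA_CC hz1 T hT, sub_zero]
      have h2 := pb_inj f h1 (by
        rw [map_sub, ← pb_bd f hf (hr (onA_CC hy')), pb_pf, hy2, sub_self])
      exact sub_eq_zero.mp h2
    · rintro ⟨y, hy, rfl⟩
      refine ⟨pb F f y, pb_mem f hfa hy, ?_⟩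
      rw [pb_bd f hf (hr (onA_CC hy))]
  · rintro w ⟨hw1, hw2⟩
    have hw2 : bd F w = 0 := hw2
    have hw' := pf_mem (H := H) f hfa hw1
    refine ⟨pf f w, ⟨hw', ?_⟩, ?_⟩
    · show bd F _ = 0
      refine pb_inj f (onA_bd (onA_CC hw')) ?_
      rw [← pb_bd f hf (hr (onA_CC hw')), pb_pf, hw2]
    · rw [pb_pf, sub_self]
      exact Submodule.zero_mem _

open Classical in
/-- the polynomial `∑ X ^ |T|` over the cliques `T ⊆ A` -/
noncomputable def fp (G : SimpleGraph V) (A : Set V) : Polynomial ℤ :=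
  ∑ T : Finset V, if G.IsClique (T : Set V) ∧ (T : Set V) ⊆ A then Polynomial.X ^ T.card else 0

theorem fp_map (f : V ↪ W) {A : Set V} (hfa : ∀ x ∈ A, ∀ y ∈ A, G.Adj x y ↔ H.Adj (f x) (f y)) :
    fp H (f '' A) = fp G A := by
  classical
  unfold fp
  rw [← Finset.sum_filter, ← Finset.sum_filter]
  symm
  refine Finset.sum_bij (fun T _ => T.map f) ?_ ?_ ?_ ?_
  · intro T hT
    rw [mem_filter] at hT ⊢
    refine ⟨mem_univ _, (clique_map f hfa hT.2.2).mpr hT.2.1, ?_⟩
    rw [Finset.coe_map]
    exact Set.image_mono hT.2.2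
  · intro T _ T' _ h
    exact Finset.map_injective f h
  · intro T hT
    rw [mem_filter] at hT
    obtain ⟨R, rfl, hR⟩ := exists_map f hT.2.2
    exact ⟨R, mem_filter.mpr ⟨mem_univ _, (clique_map f hfa hR).mp hT.2.1, hR⟩, rfl⟩
  · intro T _
    rw [card_map]

theorem fp_union {A B : Set V} (hs : ∀ a ∈ A, a ∉ B → ∀ b ∈ B, b ∉ A → ¬ G.Adj a b) :
    fp G (A ∪ B) + fp G (A ∩ B) = fp G A + fp G B := by
  classical
  unfold fp
  rw [← Finset.sum_add_distrib, ← Finset.sum_add_distrib]
  refine Finset.sum_congr rfl fun T _ => ?_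
  by_cases hT : G.IsClique (T : Set V)
  · have h1 : (T : Set V) ⊆ A ∪ B ↔ (T : Set V) ⊆ A ∨ (T : Set V) ⊆ B := by
      constructor
      · intro h
        by_contra hcon
        push Not at hcon
        obtain ⟨h2, h3⟩ := hcon
        rw [Set.not_subset] at h2 h3
        obtain ⟨b, hbT, hbA⟩ := h2
        obtain ⟨a, haT, haB⟩ := h3
        have hbB : b ∈ B := (h hbT).resolve_left hbA
        have haA : a ∈ A := (h haT).resolve_right haB
        exact hs a haA haB b hbB hbA (hT haT hbT (by rintro rfl; exact haB hbB))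
      · rintro (h | h)
        · exact h.trans Set.subset_union_left
        · exact h.trans Set.subset_union_right
    have h2 : (T : Set V) ⊆ A ∩ B ↔ (T : Set V) ⊆ A ∧ (T : Set V) ⊆ B := Set.subset_inter_iff
    simp only [hT, h1, h2, true_and]
    by_cases h3 : (T : Set V) ⊆ A <;> by_cases h4 : (T : Set V) ⊆ B <;> simp [h3, h4]
  · simp only [hT, false_and, if_false, add_zero]

theorem fp_cone {A : Set V} {v : V} (hv : v ∉ A) (h : ∀ u ∈ A, G.Adj v u) :
    fp G (insert v A) = (1 + Polynomial.X) * fp G A := by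
  classical
  unfold fp
  rw [← Finset.sum_filter, ← Finset.sum_filter]
  have h1 : (Finset.univ : Finset (Finset V)).filter
      (fun T : Finset V => G.IsClique (T : Set V) ∧ (T : Set V) ⊆ insert v A) =
      (Finset.univ.filter (fun T : Finset V => G.IsClique (T : Set V) ∧ (T : Set V) ⊆ A)) ∪
      (Finset.univ.filter (fun T : Finset V => G.IsClique (T : Set V) ∧ (T : Set V) ⊆ A)).image (insert v) := by
    ext T
    simp only [mem_filter, mem_univ, true_and, mem_union, mem_image]
    constructor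
    · rintro ⟨h2, h3⟩
      by_cases hvT : v ∈ T
      · right
        refine ⟨T.erase v, ⟨h2.subset (by simp), fun x hx => ?_⟩, insert_erase hvT⟩
        have hx' : x ≠ v ∧ x ∈ T := by simpa [and_comm] using hx
        exact (h3 hx'.2).resolve_left hx'.1
      · left
        refine ⟨h2, fun x hx => (h3 hx).resolve_left ?_⟩
        rintro rfl
        exact hvT hx
    · rintro (⟨h2, h3⟩ | ⟨R, ⟨h2, h3⟩, rfl⟩)
      · exact ⟨h2, h3.trans (Set.subset_insert _ _)⟩
      · rw [Finset.coe_insert]
        refine ⟨?_, Set.insert_subset_insert h3⟩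
        rw [SimpleGraph.isClique_insert]
        exact ⟨h2, fun b hb _ => h b (h3 hb)⟩
  have h4 : ∀ R ∈ Finset.univ.filter (fun T : Finset V => G.IsClique (T : Set V) ∧ (T : Set V) ⊆ A), v ∉ R := by
    intro R hR h5
    rw [mem_filter] at hR
    exact hv (hR.2.2 h5)
  rw [h1, Finset.sum_union, Finset.sum_image, add_mul, one_mul, Finset.mul_sum]
  · congr 1
    refine Finset.sum_congr rfl fun R hR => ?_
    rw [card_insert_of_notMem (h4 R hR), pow_succ, mul_comm]
  · intro R hR R' hR' h5
    have h6 := congrArg (fun T => Finset.erase T v) h5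
    simp only [erase_insert (h4 R hR), erase_insert (h4 R' hR')] at h6
    exact h6
  · rw [Finset.disjoint_left]
    intro R hR hR2
    rw [mem_image] at hR2
    obtain ⟨R', _, rfl⟩ := hR2
    exact h4 _ hR (mem_insert_self _ _)

/-- adding a vertex -/
theorem fp_insert {A : Set V} {v : V} (hv : v ∉ A) :
    fp G (insert v A) = fp G A + Polynomial.X * fp G (A ∩ G.neighborSet v) := by
  have h1 := fp_union (G := G) (A := A) (B := insert v (A ∩ G.neighborSet v)) (by
    intro a ha haB b hb hbA hab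
    rcases hb with rfl | hb
    · exact haB (Or.inr ⟨ha, hab.symm⟩)
    · exact hbA hb.1)
  have h2 : A ∪ insert v (A ∩ G.neighborSet v) = insert v A := by
    ext x
    simp only [Set.mem_union, Set.mem_insert_iff, Set.mem_inter_iff]
    tauto
  have h3 : A ∩ insert v (A ∩ G.neighborSet v) = A ∩ G.neighborSet v := by
    ext x
    simp only [Set.mem_insert_iff, Set.mem_inter_iff]
    constructor
    · rintro ⟨h4, rfl | h5⟩
      · exact absurd h4 hv
      · exact h5
    · intro h4
      exact ⟨h4.1, Or.inr h4⟩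
  rw [h2, h3, fp_cone (A := A ∩ G.neighborSet v) (fun h4 => hv h4.1) (fun u hu => hu.2)] at h1
  linear_combination h1

end

end Pool.Agent.R580.CD
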